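import Mathlib

/-!
Basic continuum theory used for the problem MP_3ae40e_gt: continua, components, boundary bumping,
irreducible subcontinua, cut points.
-/

set_option autoImplicit false

open Set Topology

namespace Pool.Agent.Helper52Triod

variable {X : Type*} [TopologicalSpace X] [T2Space X] [CompactSpace X]

/-- A (possibly degenerate) subcontinuum: a closed connected (nonempty) set. -/
def Ctm (K : Set X) : Prop := IsClosed K ∧ IsConnected K

omit [T2Space X] [CompactSpace X] in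
theorem Ctm.closed {K : Set X} (h : Ctm K) : IsClosed K := h.1
omit [T2Space X] [CompactSpace X] in
theorem Ctm.conn {K : Set X} (h : Ctm K) : IsConnected K := h.2
omit [T2Space X] [CompactSpace X] in
theorem Ctm.pre {K : Set X} (h : Ctm K) : IsPreconnected K := h.2.2
omit [T2Space X] [CompactSpace X] in
theorem Ctm.ne {K : Set X} (h : Ctm K) : K.Nonempty := h.2.1

omit [T2Space X] [CompactSpace X] in
/-- Union of two continua with a common point. -/
theorem Ctm.union {A B : Set X} (hA : Ctm A) (hB : Ctm B) (h : (A ∩ B).Nonempty) :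
    Ctm (A ∪ B) :=
  ⟨hA.1.union hB.1, IsConnected.union h hA.2 hB.2⟩

omit [T2Space X] [CompactSpace X] in
/-- Convenient separation form of preconnectedness for closed sets. -/
theorem pre_split {Z F G : Set X} (hZ : IsPreconnected Z) (hF : IsClosed F) (hG : IsClosed G)
    (hZFG : Z ⊆ F ∪ G) (hd : ∀ x ∈ Z, x ∈ F → x ∈ G → False) : Z ⊆ F ∨ Z ⊆ G := by
  refine (isPreconnected_iff_subset_of_disjoint_closed.1 hZ) F G hF hG hZFG ?_
  ext x
  simp only [mem_inter_iff, mem_empty_iff_false, iff_false, not_and]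
  exact fun a b c => hd x a b c

omit [T2Space X] [CompactSpace X] in
theorem pre_of_split {Z : Set X}
    (h : ∀ F G : Set X, IsClosed F → IsClosed G → Z ⊆ F ∪ G → (∀ x ∈ Z, x ∈ F → x ∈ G → False) →
      Z ⊆ F ∨ Z ⊆ G) : IsPreconnected Z := by
  rw [isPreconnected_iff_subset_of_disjoint_closed]
  intro u v hu hv hs hd
  refine h u v hu hv hs ?_
  intro x hx hxu hxv
  have : x ∈ Z ∩ (u ∩ v) := ⟨hx, hxu, hxv⟩
  rw [hd] at this
  exact this

/-- Component of `x` in `F`. -/
noncomputable abbrev comp (F : Set X) (x : X) : Set X := connectedComponentIn F x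

omit [T2Space X] [CompactSpace X] in
theorem comp_closed {F : Set X} (hF : IsClosed F) (x : X) : IsClosed (comp F x) := by
  by_cases hx : x ∈ F
  · have h1 : closure (comp F x) ⊆ comp F x := by
      apply IsPreconnected.subset_connectedComponentIn
      · exact isPreconnected_connectedComponentIn.closure
      · exact subset_closure (mem_connectedComponentIn hx)
      · exact closure_minimal (connectedComponentIn_subset F x) hF
    exact isClosed_of_closure_subset h1
  · rw [comp, connectedComponentIn_eq_empty hx]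
    exact isClosed_empty

omit [T2Space X] [CompactSpace X] in
theorem comp_ctm {F : Set X} (hF : IsClosed F) {x : X} (hx : x ∈ F) : Ctm (comp F x) :=
  ⟨comp_closed hF x, isConnected_connectedComponentIn_iff.2 hx⟩

omit [T2Space X] [CompactSpace X] in
theorem comp_max {F K : Set X} {x : X} (hK : IsPreconnected K) (hx : x ∈ K) (hKF : K ⊆ F) :
    K ⊆ comp F x := hK.subset_connectedComponentIn hx hKF

omit [T2Space X] [CompactSpace X] in
theorem mem_comp {F : Set X} {x : X} (hx : x ∈ F) : x ∈ comp F x := mem_connectedComponentIn hx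

omit [T2Space X] [CompactSpace X] in
theorem comp_sub (F : Set X) (x : X) : comp F x ⊆ F := connectedComponentIn_subset F x

omit [T2Space X] [CompactSpace X] in
theorem comp_eq_of_mem {F : Set X} {x y : X} (h : y ∈ comp F x) : comp F x = comp F y :=
  connectedComponentIn_eq h

omit [T2Space X] [CompactSpace X] in
theorem comp_eq_self {F : Set X} {x : X} (hF : IsPreconnected F) (hx : x ∈ F) : comp F x = F :=
  hF.connectedComponentIn hx

omit [T2Space X] [CompactSpace X] in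
/-- Two components of `F` are equal or disjoint. -/
theorem comp_disj {F : Set X} {x y : X} (h : y ∉ comp F x) : Disjoint (comp F x) (comp F y) := by
  rw [Set.disjoint_left]
  intro z hzx hzy
  apply h
  rw [comp_eq_of_mem hzx, ← comp_eq_of_mem hzy]
  have hy : y ∈ F := by
    by_contra hy
    rw [comp, connectedComponentIn_eq_empty hy] at hzy
    exact hzy
  exact mem_comp hy

/-- Clopen separation of a component from the complement of an open neighbourhood. -/
theorem exists_clopen_sep {F U : Set X} (hF : IsClosed F) {x : X} (hx : x ∈ F) (hU : IsOpen U)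
    (h : comp F x ⊆ U) :
    ∃ G : Set X, IsClosed G ∧ IsClosed (F \ G) ∧ x ∈ G ∧ G ⊆ F ∧ G ⊆ U := by
  have : CompactSpace F := isCompact_iff_compactSpace.1 hF.isCompact
  let x' : F := ⟨x, hx⟩
  have h1 : (⋂ s : { s : Set F // IsClopen s ∧ x' ∈ s }, (s : Set F)) ⊆ ((↑) ⁻¹' U : Set F) := by
    rw [← connectedComponent_eq_iInter_isClopen x']
    intro y hy
    apply h
    rw [comp, connectedComponentIn_eq_image hx]
    exact ⟨y, hy, rfl⟩
  have hUo : IsOpen ((↑) ⁻¹' U : Set F) := hU.preimage continuous_subtype_val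
  have : Nonempty { s : Set F // IsClopen s ∧ x' ∈ s } := ⟨⟨univ, isClopen_univ, mem_univ _⟩⟩
  obtain ⟨s, hs⟩ : ∃ s : { s : Set F // IsClopen s ∧ x' ∈ s }, (s : Set F) ⊆ ((↑) ⁻¹' U : Set F) := by
    refine exists_subset_nhds_of_compactSpace (V := fun s : { s : Set F // IsClopen s ∧ x' ∈ s } => (s : Set F))
      ?_ ?_ ?_
    · intro a b
      refine ⟨⟨a.1 ∩ b.1, a.2.1.inter b.2.1, a.2.2, b.2.2⟩, ?_, ?_⟩
      · exact inter_subset_left
      · exact inter_subset_right
    · intro a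
      exact a.2.1.1
    · intro y hy
      exact hUo.mem_nhds (h1 hy)
  refine ⟨(↑) '' (s : Set F), ?_, ?_, ?_, ?_, ?_⟩
  · exact (s.2.1.1.isCompact.image continuous_subtype_val).isClosed
  · have : F \ ((↑) '' (s : Set F)) = ((↑) : F → X) '' (s : Set F)ᶜ := by
      ext y
      constructor
      · rintro ⟨hyF, hy⟩
        refine ⟨⟨y, hyF⟩, ?_, rfl⟩
        intro hys
        exact hy ⟨⟨y, hyF⟩, hys, rfl⟩
      · rintro ⟨z, hz, rfl⟩
        refine ⟨z.2, ?_⟩
        rintro ⟨w, hw, hwz⟩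
        apply hz
        rwa [Subtype.val_injective hwz] at hw
    rw [this]
    exact (s.2.1.compl.1.isCompact.image continuous_subtype_val).isClosed
  · exact ⟨x', s.2.2, rfl⟩
  · rintro _ ⟨z, _, rfl⟩
    exact z.2
  · rintro _ ⟨z, hz, rfl⟩
    exact hs hz

/-- Boundary bumping: the component of `x` in `L ∩ N` leaves the interior of `N`. -/
theorem bump {L N : Set X} (hL : Ctm L) (hN : IsClosed N) {x : X} (hxL : x ∈ L) (hxN : x ∈ N)
    (h : ¬ L ⊆ interior N) : ¬ comp (L ∩ N) x ⊆ interior N := by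
  intro hc
  apply h
  obtain ⟨G, hG, hG', hxG, hGF, hGU⟩ :=
    exists_clopen_sep (hL.1.inter hN) (x := x) ⟨hxL, hxN⟩ isOpen_interior hc
  have hsub : L ⊆ G ∪ ((L ∩ N) \ G ∪ L \ interior N) := by
    intro y hy
    by_cases hyG : y ∈ G
    · exact Or.inl hyG
    · by_cases hyN : y ∈ N
      · exact Or.inr (Or.inl ⟨⟨hy, hyN⟩, hyG⟩)
      · exact Or.inr (Or.inr ⟨hy, fun h => hyN (interior_subset h)⟩)
  have hcl : IsClosed ((L ∩ N) \ G ∪ L \ interior N) :=
    hG'.union (hL.1.sdiff isOpen_interior)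
  have hdd : ∀ y ∈ L, y ∈ G → y ∈ ((L ∩ N) \ G ∪ L \ interior N) → False := by
    intro y _ hyG hy
    rcases hy with h2 | h2
    · exact h2.2 hyG
    · exact h2.2 (hGU hyG)
  rcases pre_split hL.pre hG hcl hsub hdd with h1 | h1
  · exact h1.trans hGU
  · exfalso
    rcases h1 hxL with h2 | h2
    · exact h2.2 hxG
    · exact h2.2 (hGU hxG)

/-- Small exits: if `L` leaves `H`, then the component of `L ∩ N` at `e` still leaves `H` whenever `N`
is a closed neighbourhood of the component of `L ∩ H` at `e`. -/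
theorem exit_small {L H N : Set X} (hL : Ctm L) (hN : IsClosed N) {e : X}
    (heL : e ∈ L) (heH : e ∈ H) (hLH : ¬ L ⊆ H) (hcN : comp (L ∩ H) e ⊆ interior N) :
    ¬ comp (L ∩ N) e ⊆ H := by
  have heN : e ∈ N := interior_subset (hcN (mem_comp ⟨heL, heH⟩))
  by_cases hLN : L ⊆ interior N
  · have : L ∩ N = L := inter_eq_left.2 (hLN.trans interior_subset)
    rw [this, comp_eq_self hL.pre heL]
    exact hLH
  · intro hc
    apply bump hL hN heL heN hLN
    refine Subset.trans ?_ hcN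
    exact comp_max isPreconnected_connectedComponentIn (mem_comp (F := L ∩ N) ⟨heL, heN⟩)
      (fun y hy => ⟨(comp_sub _ _ hy).1, hc hy⟩)

/-- Closed neighbourhoods. -/
theorem exists_nhd {E U : Set X} (hE : IsClosed E) (hU : IsOpen U) (h : E ⊆ U) :
    ∃ N : Set X, IsClosed N ∧ E ⊆ interior N ∧ N ⊆ U := by
  obtain ⟨V, hV, hEV, hVU⟩ := normal_exists_closure_subset hE hU h
  refine ⟨closure V, isClosed_closure, hEV.trans ?_, hVU⟩
  exact hV.subset_interior_iff.2 subset_closure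

/-- Three pairwise disjoint closed sets have pairwise disjoint closed neighbourhoods. -/
theorem exists_nhd3 {E₁ E₂ E₃ : Set X} (h1 : IsClosed E₁) (h2 : IsClosed E₂) (h3 : IsClosed E₃)
    (h12 : Disjoint E₁ E₂) (h13 : Disjoint E₁ E₃) (h23 : Disjoint E₂ E₃) :
    ∃ N₁ N₂ N₃ : Set X, IsClosed N₁ ∧ IsClosed N₂ ∧ IsClosed N₃ ∧
      E₁ ⊆ interior N₁ ∧ E₂ ⊆ interior N₂ ∧ E₃ ⊆ interior N₃ ∧
      Disjoint N₁ N₂ ∧ Disjoint N₁ N₃ ∧ Disjoint N₂ N₃ := by
  obtain ⟨N₁, hN₁, hE₁, hU₁⟩ := exists_nhd h1 (h2.union h3).isOpen_compl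
    (subset_compl_iff_disjoint_right.2 (disjoint_union_right.2 ⟨h12, h13⟩))
  have d12 : Disjoint E₂ N₁ := by
    rw [Set.disjoint_left]; intro y hy hy'; exact hU₁ hy' (Or.inl hy)
  have d13 : Disjoint E₃ N₁ := by
    rw [Set.disjoint_left]; intro y hy hy'; exact hU₁ hy' (Or.inr hy)
  obtain ⟨N₂, hN₂, hE₂, hU₂⟩ := exists_nhd h2 (hN₁.union h3).isOpen_compl
    (subset_compl_iff_disjoint_right.2 (disjoint_union_right.2 ⟨d12, h23⟩))
  have d23 : Disjoint E₃ N₂ := by
    rw [Set.disjoint_left]; intro y hy hy'; exact hU₂ hy' (Or.inr hy)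
  obtain ⟨N₃, hN₃, hE₃, hU₃⟩ := exists_nhd h3 (hN₁.union hN₂).isOpen_compl
    (subset_compl_iff_disjoint_right.2 (disjoint_union_right.2 ⟨d13, d23⟩))
  refine ⟨N₁, N₂, N₃, hN₁, hN₂, hN₃, hE₁, hE₂, hE₃, ?_, ?_, ?_⟩
  · rw [Set.disjoint_left]; intro y hy hy'; exact hU₂ hy' (Or.inl hy)
  · rw [Set.disjoint_left]; intro y hy hy'; exact hU₃ hy' (Or.inl hy)
  · rw [Set.disjoint_left]; intro y hy hy'; exact hU₃ hy' (Or.inr hy)

/-- Intersection of a nonempty chain of continua is a continuum. -/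
theorem ctm_sInter {c : Set (Set X)} (hc : IsChain (· ⊆ ·) c) (hne : c.Nonempty)
    (h : ∀ K ∈ c, Ctm K) : Ctm (⋂₀ c) := by
  have hcl : IsClosed (⋂₀ c) := isClosed_sInter fun K hK => (h K hK).1
  have : Nonempty c := hne.to_subtype
  have hdir : Directed (· ⊇ ·) (fun K : c => (K : Set X)) := by
    intro a b
    rcases hc.total a.2 b.2 with hab | hab
    · exact ⟨a, subset_rfl, hab⟩
    · exact ⟨b, hab, subset_rfl⟩
  refine ⟨hcl, ?_, ?_⟩
  · rw [sInter_eq_iInter]
    exact IsCompact.nonempty_iInter_of_directed_nonempty_isCompact_isClosed _ hdir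
      (fun K => (h K K.2).ne) (fun K => (h K K.2).1.isCompact) (fun K => (h K K.2).1)
  · rw [isPreconnected_iff_subset_of_fully_disjoint_closed hcl]
    intro a b ha hb hab hdis
    obtain ⟨u, v, hu, hv, hau, hbv, huv⟩ := normal_separation ha hb hdis
    obtain ⟨K, hK⟩ : ∃ K : c, (K : Set X) ⊆ u ∪ v := by
      refine exists_subset_nhds_of_compactSpace (V := fun K : c => (K : Set X)) hdir
        (fun K => (h K K.2).1) ?_
      intro x hx
      rw [← sInter_eq_iInter] at hx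
      exact (hu.union hv).mem_nhds (union_subset_union hau hbv (hab hx))
    have hKpre := (h K K.2).pre
    have key : (K : Set X) ⊆ u ∨ (K : Set X) ⊆ v := by
      refine isPreconnected_iff_subset_of_disjoint.1 hKpre u v hu hv hK ?_
      rw [huv.inter_eq, inter_empty]
    rcases key with h1 | h1
    · left
      intro x hx
      rcases hab hx with h2 | h2
      · exact h2
      · exact absurd (h1 (mem_sInter.1 hx K K.2)) (fun h3 => (Set.disjoint_left.1 huv) h3 (hbv h2))
    · right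
      intro x hx
      rcases hab hx with h2 | h2
      · exact absurd (h1 (mem_sInter.1 hx K K.2)) (fun h3 => (Set.disjoint_left.1 huv) (hau h2) h3)
      · exact h2

/-- `K` is a minimal continuum containing `x` and meeting `Z`. -/
def Irr (K : Set X) (x : X) (Z : Set X) : Prop :=
  Ctm K ∧ x ∈ K ∧ (K ∩ Z).Nonempty ∧
    ∀ K' : Set X, K' ⊆ K → Ctm K' → x ∈ K' → (K' ∩ Z).Nonempty → K ⊆ K'

theorem exists_irr {H Z : Set X} {x : X} (hH : Ctm H) (hZ : IsClosed Z) (hx : x ∈ H)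
    (hHZ : (H ∩ Z).Nonempty) : ∃ K, K ⊆ H ∧ Irr K x Z := by
  let S : Set (Set X) := {K | K ⊆ H ∧ Ctm K ∧ x ∈ K ∧ (K ∩ Z).Nonempty}
  have hS : H ∈ S := ⟨subset_rfl, hH, hx, hHZ⟩
  obtain ⟨M, hMH, hM⟩ : ∃ M, M ⊆ H ∧ Minimal (· ∈ S) M := by
    apply zorn_superset_nonempty S _ H hS
    intro c hcS hc hne
    refine ⟨⋂₀ c, ⟨?_, ctm_sInter hc hne (fun K hK => (hcS hK).2.1), ?_, ?_⟩,
      fun K hK => sInter_subset_of_mem hK⟩
    · obtain ⟨K, hK⟩ := hne
      exact (sInter_subset_of_mem hK).trans (hcS hK).1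
    · exact mem_sInter.2 fun K hK => (hcS hK).2.2.1
    · have : Nonempty c := hne.to_subtype
      have : (⋂ K : c, ((K : Set X) ∩ Z)).Nonempty := by
        apply IsCompact.nonempty_iInter_of_directed_nonempty_isCompact_isClosed
        · intro a b
          rcases hc.total a.2 b.2 with hab | hab
          · exact ⟨a, subset_rfl, inter_subset_inter_left _ hab⟩
          · exact ⟨b, inter_subset_inter_left _ hab, subset_rfl⟩
        · intro K
          exact (hcS K.2).2.2.2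
        · intro K
          exact ((hcS K.2).2.1.1.inter hZ).isCompact
        · intro K
          exact (hcS K.2).2.1.1.inter hZ
      obtain ⟨z, hz⟩ := this
      obtain ⟨K₀, hK₀⟩ := hne
      refine ⟨z, mem_sInter.2 fun K hK => (mem_iInter.1 hz ⟨K, hK⟩).1,
        (mem_iInter.1 hz ⟨K₀, hK₀⟩).2⟩
  refine ⟨M, hMH, hM.1.2.1, hM.1.2.2.1, hM.1.2.2.2, ?_⟩
  intro K' hK'M hK' hxK' hK'Z
  exact hM.2 ⟨hK'M.trans hM.1.1, hK', hxK', hK'Z⟩ hK'M

/-- `K` is a continuum irreducible between the points `a` and `b`. -/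
def IrrPt (K : Set X) (a b : X) : Prop :=
  Ctm K ∧ a ∈ K ∧ b ∈ K ∧ ∀ K' : Set X, K' ⊆ K → Ctm K' → a ∈ K' → b ∈ K' → K ⊆ K'

omit [T2Space X] [CompactSpace X] in
theorem IrrPt.symm {K : Set X} {a b : X} (h : IrrPt K a b) : IrrPt K b a :=
  ⟨h.1, h.2.2.1, h.2.1, fun K' h1 h2 h3 h4 => h.2.2.2 K' h1 h2 h4 h3⟩

omit [T2Space X] [CompactSpace X] in
theorem IrrPt.eq {K K' : Set X} {a b : X} (h : IrrPt K a b) (h1 : K' ⊆ K) (h2 : Ctm K')
    (h3 : a ∈ K') (h4 : b ∈ K') : K' = K := h1.antisymm (h.2.2.2 K' h1 h2 h3 h4)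

theorem exists_irrPt {H : Set X} {a b : X} (hH : Ctm H) (ha : a ∈ H) (hb : b ∈ H) :
    ∃ K, K ⊆ H ∧ IrrPt K a b := by
  obtain ⟨K, hKH, hK⟩ := exists_irr hH (isClosed_singleton (x := b)) ha ⟨b, hb, rfl⟩
  refine ⟨K, hKH, hK.1, hK.2.1, ?_, ?_⟩
  · obtain ⟨z, hz, hz'⟩ := hK.2.2.1
    rw [mem_singleton_iff] at hz'
    rwa [← hz']
  · intro K' h1 h2 h3 h4
    exact hK.2.2.2 K' h1 h2 h3 ⟨b, h4, rfl⟩

omit [T2Space X] [CompactSpace X] in
/-- If `H = H₁ ∪ F ∪ G` is connected, `H₁` is connected and `F`, `G` are disjoint closed sets,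
then `H₁ ∪ F` is connected. -/
theorem union_part {H H₁ F G : Set X} (hH : IsPreconnected H) (hH₁ : Ctm H₁) (hF : IsClosed F)
    (hG : IsClosed G) (hHe : H = H₁ ∪ F ∪ G) (hd : Disjoint F G) : Ctm (H₁ ∪ F) := by
  refine ⟨hH₁.1.union hF, hH₁.ne.inl, ?_⟩
  apply pre_of_split
  intro A B hA hB hAB hdis
  have aux : ∀ A B : Set X, IsClosed A → IsClosed B → H₁ ∪ F ⊆ A ∪ B →
      (∀ x ∈ H₁ ∪ F, x ∈ A → x ∈ B → False) → H₁ ⊆ A → H₁ ∪ F ⊆ A := by
    intro A B hA hB hAB hdis hHA
    have hsub : H ⊆ (A ∩ (H₁ ∪ F) ∪ G) ∪ (B ∩ F) := by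
      rw [hHe]
      rintro y ((hy | hy) | hy)
      · exact Or.inl (Or.inl ⟨hHA hy, Or.inl hy⟩)
      · rcases hAB (Or.inr hy) with h | h
        · exact Or.inl (Or.inl ⟨h, Or.inr hy⟩)
        · exact Or.inr ⟨h, hy⟩
      · exact Or.inl (Or.inr hy)
    have hdd : ∀ y ∈ H, y ∈ (A ∩ (H₁ ∪ F) ∪ G) → y ∈ (B ∩ F) → False := by
      rintro y _ (h | h) h'
      · exact hdis y (Or.inr h'.2) h.1 h'.1
      · exact (Set.disjoint_left.1 hd) h'.2 h
    rcases pre_split hH ((hA.inter (hH₁.1.union hF)).union hG) (hB.inter hF) hsub hdd with h | h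
    · intro y hy
      rcases h (by rw [hHe]; exact Or.inl hy) with h2 | h2
      · exact h2.1
      · rcases hy with h3 | h3
        · exact hHA h3
        · exact absurd h2 (Set.disjoint_left.1 hd h3)
    · obtain ⟨z, hz⟩ := hH₁.ne
      have := h (by rw [hHe]; exact Or.inl (Or.inl hz))
      exact absurd this.1 (fun hzB => hdis z (Or.inl hz) (hHA hz) hzB)
  rcases pre_split hH₁.pre hA hB (subset_union_left.trans hAB)
    (fun x hx => hdis x (Or.inl hx)) with h | h
  · left; exact aux A B hA hB hAB hdis h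
  · right
    exact aux B A hB hA (by rwa [union_comm B A]) (fun x hx h1 h2 => hdis x hx h2 h1) h

omit [T2Space X] [CompactSpace X] in
/-- If a connected `Z` is covered by closed `A`, `B` with `Z ∩ A ∩ B = {r}`, then `Z ∩ A` is
connected. -/
theorem cut_conn {Z A B : Set X} (hZ : Ctm Z) (hA : IsClosed A) (hB : IsClosed B)
    (hZAB : Z ⊆ A ∪ B) {r : X} (hrZ : r ∈ Z) (hrA : r ∈ A) (_hrB : r ∈ B)
    (hAB : ∀ x ∈ Z, x ∈ A → x ∈ B → x = r) : Ctm (Z ∩ A) := by
  refine ⟨hZ.1.inter hA, ⟨r, hrZ, hrA⟩, ?_⟩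
  have aux : ∀ F G : Set X, IsClosed F → IsClosed G → Z ∩ A ⊆ F ∪ G →
      (∀ x ∈ Z ∩ A, x ∈ F → x ∈ G → False) → r ∈ F → Z ∩ A ⊆ F := by
    intro F G hF hG hFG hdis hrF
    have hsub : Z ⊆ (Z ∩ A ∩ F ∪ Z ∩ B) ∪ (Z ∩ A ∩ G) := by
      intro y hy
      rcases hZAB hy with h | h
      · rcases hFG ⟨hy, h⟩ with h' | h'
        · exact Or.inl (Or.inl ⟨⟨hy, h⟩, h'⟩)
        · exact Or.inr ⟨⟨hy, h⟩, h'⟩
      · exact Or.inl (Or.inr ⟨hy, h⟩)
    have hdd : ∀ y ∈ Z, y ∈ (Z ∩ A ∩ F ∪ Z ∩ B) → y ∈ (Z ∩ A ∩ G) → False := by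
      rintro y _ (h | h) h'
      · exact hdis y h'.1 h.2 h'.2
      · have := hAB y h'.1.1 h'.1.2 h.2
        rw [this] at h'
        exact hdis r h'.1 hrF h'.2
    rcases pre_split hZ.pre ((((hZ.1.inter hA).inter hF)).union (hZ.1.inter hB))
      ((hZ.1.inter hA).inter hG) hsub hdd with h | h
    · intro y hy
      rcases h hy.1 with h2 | h2
      · exact h2.2
      · rw [hAB y hy.1 hy.2 h2.2]; exact hrF
    · exfalso
      exact hdis r ⟨hrZ, hrA⟩ hrF (h hrZ).2
  apply pre_of_split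
  intro F G hF hG hFG hdis
  rcases hFG ⟨hrZ, hrA⟩ with h | h
  · left; exact aux F G hF hG hFG hdis h
  · right
    exact aux G F hG hF (by rwa [union_comm G F]) (fun x hx h1 h2 => hdis x hx h2 h1) h

end Pool.Agent.Helper52Triod
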