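import Mathlib
import Pool.Agent.Helper52_Triod.Basic

/-!
Triods, and Sorgenfrey's theorem on three continua with a common point in a set without triods.
-/

set_option autoImplicit false

open Set Topology

namespace Pool.Agent.Helper52Triod

variable {X : Type*} [TopologicalSpace X]

/-- A triod, exactly as in the problem statement. -/
def Triod (T : Set X) : Prop :=
  IsCompact T ∧ IsConnected T ∧
    ∃ Z : Set X, Z ⊆ T ∧ IsCompact Z ∧ IsConnected Z ∧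
      ∃ A B C : Set X, A.Nonempty ∧ B.Nonempty ∧ C.Nonempty ∧
        T \ Z = A ∪ B ∪ C ∧
        closure A ∩ B = ∅ ∧ A ∩ closure B = ∅ ∧
        closure A ∩ C = ∅ ∧ A ∩ closure C = ∅ ∧
        closure B ∩ C = ∅ ∧ B ∩ closure C = ∅

/-- `K` contains no triod. -/
def NoTriod (K : Set X) : Prop := ∀ T : Set X, T ⊆ K → ¬ Triod T

theorem NoTriod.mono {K K' : Set X} (h : NoTriod K) (h' : K' ⊆ K) : NoTriod K' :=
  fun T hT => h T (hT.trans h')

variable [T2Space X] [CompactSpace X]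

omit [T2Space X] in
theorem triod_mk {T Z A B C A' B' C' : Set X} (hT : Ctm T) (hZ : Ctm Z) (hZT : Z ⊆ T)
    (hA : A.Nonempty) (hB : B.Nonempty) (hC : C.Nonempty) (hTZ : T \ Z = A ∪ B ∪ C)
    (hA' : IsClosed A') (hB' : IsClosed B') (hC' : IsClosed C')
    (hAA : A ⊆ A') (hBB : B ⊆ B') (hCC : C ⊆ C')
    (hAB : ∀ x ∈ A', x ∉ B) (hAC : ∀ x ∈ A', x ∉ C)
    (hBA : ∀ x ∈ B', x ∉ A) (hBC : ∀ x ∈ B', x ∉ C)
    (hCA : ∀ x ∈ C', x ∉ A) (hCB : ∀ x ∈ C', x ∉ B) : Triod T := by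
  have cA : closure A ⊆ A' := closure_minimal hAA hA'
  have cB : closure B ⊆ B' := closure_minimal hBB hB'
  have cC : closure C ⊆ C' := closure_minimal hCC hC'
  refine ⟨hT.1.isCompact, hT.2, Z, hZT, hZ.1.isCompact, hZ.2, A, B, C, hA, hB, hC, hTZ,
    ?_, ?_, ?_, ?_, ?_, ?_⟩
  · exact eq_empty_iff_forall_notMem.2 fun x hx => hAB x (cA hx.1) hx.2
  · exact eq_empty_iff_forall_notMem.2 fun x hx => hBA x (cB hx.2) hx.1
  · exact eq_empty_iff_forall_notMem.2 fun x hx => hAC x (cA hx.1) hx.2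
  · exact eq_empty_iff_forall_notMem.2 fun x hx => hCA x (cC hx.2) hx.1
  · exact eq_empty_iff_forall_notMem.2 fun x hx => hBC x (cB hx.1) hx.2
  · exact eq_empty_iff_forall_notMem.2 fun x hx => hCB x (cC hx.2) hx.1

omit [T2Space X] in
/-- Three pairwise disjoint exits of a continuum give a triod. -/
theorem triod_of_exits {Z L₁ L₂ L₃ : Set X} (hZ : Ctm Z) (h1 : Ctm L₁) (h2 : Ctm L₂)
    (h3 : Ctm L₃) (d12 : Disjoint L₁ L₂) (d13 : Disjoint L₁ L₃) (d23 : Disjoint L₂ L₃)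
    (m1 : (Z ∩ L₁).Nonempty) (m2 : (Z ∩ L₂).Nonempty) (m3 : (Z ∩ L₃).Nonempty)
    (n1 : ¬ L₁ ⊆ Z) (n2 : ¬ L₂ ⊆ Z) (n3 : ¬ L₃ ⊆ Z) : Triod (Z ∪ L₁ ∪ L₂ ∪ L₃) := by
  have hT : Ctm (Z ∪ L₁ ∪ L₂ ∪ L₃) := by
    refine ((hZ.union h1 m1).union h2 ?_).union h3 ?_
    · obtain ⟨x, hx, hx'⟩ := m2
      exact ⟨x, Or.inl hx, hx'⟩
    · obtain ⟨x, hx, hx'⟩ := m3
      exact ⟨x, Or.inl (Or.inl hx), hx'⟩
  have ne : ∀ L : Set X, ¬ L ⊆ Z → (L \ Z).Nonempty := by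
    intro L hL
    obtain ⟨x, hx, hx'⟩ := not_subset.1 hL
    exact ⟨x, hx, hx'⟩
  refine triod_mk hT hZ (by intro x hx; exact Or.inl (Or.inl (Or.inl hx))) (ne _ n1) (ne _ n2)
    (ne _ n3) ?_ h1.1 h2.1 h3.1 sdiff_subset sdiff_subset sdiff_subset
    (fun x hx hx' => (Set.disjoint_left.1 d12) hx hx'.1)
    (fun x hx hx' => (Set.disjoint_left.1 d13) hx hx'.1)
    (fun x hx hx' => (Set.disjoint_left.1 d12) hx'.1 hx)
    (fun x hx hx' => (Set.disjoint_left.1 d23) hx hx'.1)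
    (fun x hx hx' => (Set.disjoint_left.1 d13) hx'.1 hx)
    (fun x hx hx' => (Set.disjoint_left.1 d23) hx'.1 hx)
  ext x
  simp only [mem_sdiff, mem_union]
  tauto

/-- In a set without triods the intersection of two continua is not the union of three pairwise
disjoint nonempty closed sets. -/
theorem no_three_pieces {K A B E₁ E₂ E₃ : Set X} (hK : NoTriod K) (hA : Ctm A) (hB : Ctm B)
    (hAK : A ⊆ K) (hBK : B ⊆ K) (c1 : IsClosed E₁) (c2 : IsClosed E₂) (c3 : IsClosed E₃)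
    (e1 : E₁.Nonempty) (e2 : E₂.Nonempty) (e3 : E₃.Nonempty)
    (d12 : Disjoint E₁ E₂) (d13 : Disjoint E₁ E₃) (d23 : Disjoint E₂ E₃)
    (hE : A ∩ B = E₁ ∪ E₂ ∪ E₃) : False := by
  obtain ⟨N₁, N₂, N₃, hN₁, hN₂, hN₃, i1, i2, i3, D12, D13, D23⟩ :=
    exists_nhd3 c1 c2 c3 d12 d13 d23
  obtain ⟨x1, hx1⟩ := e1
  obtain ⟨x2, hx2⟩ := e2
  obtain ⟨x3, hx3⟩ := e3
  have key : ∀ (E N E' : Set X) (x x' : X), IsClosed N → E ⊆ interior N → x ∈ E → x' ∈ E' →
      x' ∉ N → E ⊆ A ∩ B → E' ⊆ A ∩ B → (∀ y ∈ A ∩ B, y ∈ N → y ∈ E) →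
      Ctm (comp (B ∩ N) x) ∧ (A ∩ comp (B ∩ N) x).Nonempty ∧ ¬ comp (B ∩ N) x ⊆ A ∧
        comp (B ∩ N) x ⊆ K := by
    intro E N E' x x' hN hEN hx hx' hx'N hEA hE'A hyp
    have hxN : x ∈ N := interior_subset (hEN hx)
    have hxB : x ∈ B := (hEA hx).2
    have hmem : x ∈ comp (B ∩ N) x := mem_comp ⟨hxB, hxN⟩
    refine ⟨comp_ctm (hB.1.inter hN) ⟨hxB, hxN⟩, ⟨x, (hEA hx).1, hmem⟩, ?_, ?_⟩
    · intro hsub
      have hb := bump hB hN hxB hxN (fun h => hx'N (interior_subset (h (hE'A hx').2)))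
      apply hb
      intro y hy
      have hyBN := comp_sub _ _ hy
      exact hEN (hyp y ⟨hsub hy, hyBN.1⟩ hyBN.2)
    · exact (comp_sub _ _).trans (inter_subset_left.trans hBK)
  have s1 : E₁ ⊆ A ∩ B := by rw [hE]; exact fun y hy => Or.inl (Or.inl hy)
  have s2 : E₂ ⊆ A ∩ B := by rw [hE]; exact fun y hy => Or.inl (Or.inr hy)
  have s3 : E₃ ⊆ A ∩ B := by rw [hE]; exact fun y hy => Or.inr hy
  have j1 := i1.trans interior_subset
  have j2 := i2.trans interior_subset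
  have j3 := i3.trans interior_subset
  obtain ⟨a1, a2, a3, a4⟩ := key E₁ N₁ E₂ x1 x2 hN₁ i1 hx1 hx2
    (fun h => (Set.disjoint_left.1 D12) h (j2 hx2)) s1 s2 (by
      intro y hy hyN
      rw [hE] at hy
      rcases hy with (h | h) | h
      · exact h
      · exact absurd (j2 h) ((Set.disjoint_left.1 D12) hyN)
      · exact absurd (j3 h) ((Set.disjoint_left.1 D13) hyN))
  obtain ⟨b1, b2, b3, b4⟩ := key E₂ N₂ E₁ x2 x1 hN₂ i2 hx2 hx1
    (fun h => (Set.disjoint_left.1 D12) (j1 hx1) h) s2 s1 (by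
      intro y hy hyN
      rw [hE] at hy
      rcases hy with (h | h) | h
      · exact absurd hyN ((Set.disjoint_left.1 D12) (j1 h))
      · exact h
      · exact absurd (j3 h) ((Set.disjoint_left.1 D23) hyN))
  obtain ⟨g1, g2, g3, g4⟩ := key E₃ N₃ E₁ x3 x1 hN₃ i3 hx3 hx1
    (fun h => (Set.disjoint_left.1 D13) (j1 hx1) h) s3 s1 (by
      intro y hy hyN
      rw [hE] at hy
      rcases hy with (h | h) | h
      · exact absurd hyN ((Set.disjoint_left.1 D13) (j1 h))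
      · exact absurd hyN ((Set.disjoint_left.1 D23) (j2 h))
      · exact h)
  have dis : ∀ (N N' : Set X) (x x' : X), Disjoint N N' →
      Disjoint (comp (B ∩ N) x) (comp (B ∩ N') x') := by
    intro N N' x x' h
    exact h.mono ((comp_sub _ _).trans inter_subset_right)
      ((comp_sub _ _).trans inter_subset_right)
  refine hK _ ?_ (triod_of_exits hA a1 b1 g1 (dis _ _ _ _ D12) (dis _ _ _ _ D13)
    (dis _ _ _ _ D23) a2 b2 g2 a3 b3 g3)
  exact union_subset (union_subset (union_subset hAK a4) b4) g4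

/-- `Y` is a finite union of closed connected sets. -/
def FinPieces (Y : Set X) : Prop :=
  ∃ S : Set (Set X), S.Finite ∧ (∀ C ∈ S, IsClosed C ∧ IsPreconnected C) ∧ Y = ⋃₀ S

omit [T2Space X] [CompactSpace X] in
theorem FinPieces.union {Y Y' : Set X} (h : FinPieces Y) (h' : FinPieces Y') :
    FinPieces (Y ∪ Y') := by
  obtain ⟨S, hS, hC, rfl⟩ := h
  obtain ⟨S', hS', hC', rfl⟩ := h'
  refine ⟨S ∪ S', hS.union hS', ?_, (sUnion_union S S').symm⟩
  rintro C (h | h)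
  · exact hC C h
  · exact hC' C h

omit [T2Space X] [CompactSpace X] in
/-- In a finite union of closed connected sets, components are relatively open. -/
theorem FinPieces.compl_closed {Y : Set X} (h : FinPieces Y) (p : X) :
    IsClosed (Y \ comp Y p) := by
  obtain ⟨S, hS, hC, rfl⟩ := h
  have : (⋃₀ S) \ comp (⋃₀ S) p = ⋃₀ {C ∈ S | Disjoint C (comp (⋃₀ S) p)} := by
    ext y
    constructor
    · rintro ⟨⟨C, hCS, hyC⟩, hy⟩
      refine ⟨C, ⟨hCS, ?_⟩, hyC⟩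
      rw [Set.disjoint_left]
      intro z hzC hz
      apply hy
      rw [comp_eq_of_mem hz]
      exact comp_max (hC C hCS).2 hzC (subset_sUnion_of_mem hCS) hyC
    · rintro ⟨C, ⟨hCS, hd⟩, hyC⟩
      exact ⟨⟨C, hCS, hyC⟩, (Set.disjoint_left.1 hd) hyC⟩
  rw [this, sUnion_eq_biUnion]
  exact (hS.subset (sep_subset _ _)).isClosed_biUnion (fun C hCS => (hC C hCS.1).1)

omit [T2Space X] [CompactSpace X] in
theorem split_of_not_pre {F : Set X} (hF : IsClosed F) (h : ¬ IsPreconnected F) :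
    ∃ F₁ F₂ : Set X, IsClosed F₁ ∧ IsClosed F₂ ∧ F₁.Nonempty ∧ F₂.Nonempty ∧ Disjoint F₁ F₂ ∧
      F = F₁ ∪ F₂ := by
  by_contra hcon
  apply h
  apply pre_of_split
  intro u v hu hv huv hd
  by_contra hcon2
  push Not at hcon2
  obtain ⟨h1, h2⟩ := hcon2
  obtain ⟨x, hx, hxu⟩ := not_subset.1 h1
  obtain ⟨y, hy, hyv⟩ := not_subset.1 h2
  apply hcon
  refine ⟨F ∩ u, F ∩ v, hF.inter hu, hF.inter hv, ⟨y, hy, (huv hy).resolve_right hyv⟩,
    ⟨x, hx, (huv hx).resolve_left hxu⟩, ?_, ?_⟩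
  · rw [Set.disjoint_left]
    rintro z ⟨hz, hzu⟩ ⟨_, hzv⟩
    exact hd z hz hzu hzv
  · rw [← inter_union_distrib_left, inter_eq_left.2 huv]

theorem finPieces_inter {K A B : Set X} (hK : NoTriod K) (hA : Ctm A) (hB : Ctm B)
    (hAK : A ⊆ K) (hBK : B ⊆ K) : FinPieces (A ∩ B) := by
  have hcl : IsClosed (A ∩ B) := hA.1.inter hB.1
  by_cases hF : IsPreconnected (A ∩ B)
  · exact ⟨{A ∩ B}, finite_singleton _, by rintro C rfl; exact ⟨hcl, hF⟩, by simp⟩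
  obtain ⟨F₁, F₂, c1, c2, n1, n2, hd, he⟩ := split_of_not_pre hcl hF
  have p1 : IsPreconnected F₁ := by
    by_contra hp
    obtain ⟨G₁, G₂, g1, g2, m1, m2, hd', he'⟩ := split_of_not_pre c1 hp
    have hd1 : Disjoint G₁ F₂ := hd.mono_left (by rw [he']; exact subset_union_left)
    have hd2 : Disjoint G₂ F₂ := hd.mono_left (by rw [he']; exact subset_union_right)
    exact no_three_pieces hK hA hB hAK hBK g1 g2 c2 m1 m2 n2 hd' hd1 hd2 (by rw [he, he'])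
  have p2 : IsPreconnected F₂ := by
    by_contra hp
    obtain ⟨G₁, G₂, g1, g2, m1, m2, hd', he'⟩ := split_of_not_pre c2 hp
    have hd1 : Disjoint G₁ F₁ := (hd.mono_right (by rw [he']; exact subset_union_left)).symm
    have hd2 : Disjoint G₂ F₁ := (hd.mono_right (by rw [he']; exact subset_union_right)).symm
    exact no_three_pieces hK hA hB hAK hBK g1 g2 c1 m1 m2 n1 hd' hd1 hd2
      (by rw [he, he', union_comm])
  refine ⟨{F₁, F₂}, by simp, ?_, ?_⟩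
  · rintro C (rfl | rfl)
    · exact ⟨c1, p1⟩
    · exact ⟨c2, p2⟩
  · rw [he]; simp

/-- Sorgenfrey's theorem: in a set without triods, of three continua with a common point one is
contained in the union of the other two. -/
theorem sorg {K A₁ A₂ A₃ : Set X} (hK : NoTriod K) (h1 : Ctm A₁) (h2 : Ctm A₂) (h3 : Ctm A₃)
    (k1 : A₁ ⊆ K) (k2 : A₂ ⊆ K) (k3 : A₃ ⊆ K) {p : X} (p1 : p ∈ A₁) (p2 : p ∈ A₂)
    (p3 : p ∈ A₃) : A₁ ⊆ A₂ ∪ A₃ ∨ A₂ ⊆ A₁ ∪ A₃ ∨ A₃ ⊆ A₁ ∪ A₂ := by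
  by_contra hcon
  push Not at hcon
  obtain ⟨q1, q2, q3⟩ := hcon
  obtain ⟨x1, hx1, hx1'⟩ := not_subset.1 q1
  obtain ⟨x2, hx2, hx2'⟩ := not_subset.1 q2
  obtain ⟨x3, hx3, hx3'⟩ := not_subset.1 q3
  set Y : Set X := (A₁ ∩ A₂) ∪ (A₁ ∩ A₃) ∪ (A₂ ∩ A₃) with hY
  have hYf : FinPieces Y := ((finPieces_inter hK h1 h2 k1 k2).union
    (finPieces_inter hK h1 h3 k1 k3)).union (finPieces_inter hK h2 h3 k2 k3)
  have hYc : IsClosed Y := ((h1.1.inter h2.1).union (h1.1.inter h3.1)).union (h2.1.inter h3.1)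
  have hpY : p ∈ Y := Or.inl (Or.inl ⟨p1, p2⟩)
  set Z := comp Y p with hZ
  have hZY : Z ⊆ Y := comp_sub _ _
  have hZc : Ctm Z := comp_ctm hYc hpY
  have hY' : IsClosed (Y \ Z) := hYf.compl_closed p
  obtain ⟨N, hN, hZN, hNU⟩ := exists_nhd hZc.1 hY'.isOpen_compl
    (fun z hz h => h.2 hz)
  set W : Set X := A₁ ∪ A₂ ∪ A₃ with hW
  have hWc : IsClosed W := (h1.1.union h2.1).union h3.1
  have hYW : Y ⊆ W := by
    rintro y ((h | h) | h)
    · exact Or.inl (Or.inl h.1)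
    · exact Or.inl (Or.inl h.1)
    · exact Or.inl (Or.inr h.1)
  have hpN : p ∈ N := interior_subset (hZN (mem_comp hpY))
  set T := comp (W ∩ N) p with hT
  have hTc : Ctm T := comp_ctm (hWc.inter hN) ⟨hYW hpY, hpN⟩
  have hTsub : T ⊆ W ∩ N := comp_sub _ _
  have hZT : Z ⊆ T := comp_max hZc.pre (mem_comp hpY)
    (fun z hz => ⟨hYW (hZY hz), interior_subset (hZN hz)⟩)
  have hTY : ∀ y ∈ T, y ∈ Y → y ∈ Z := by
    intro y hy hyY
    by_contra hyZ
    exact hNU (hTsub hy).2 ⟨hyY, hyZ⟩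
  -- the three pieces
  have piece : ∀ (A B C : Set X) (x : X), Ctm A → A ⊆ W → p ∈ A → x ∈ A → x ∉ B → x ∉ C →
      (∀ y ∈ A, y ∉ Y → y ∉ B ∧ y ∉ C) → (∀ y ∈ A, y ∈ B ∨ y ∈ C → y ∈ Y) →
      (T ∩ (A \ (B ∪ C))).Nonempty := by
    intro A B C x hA hAW hpA hxA hxB hxC hy1 hy2
    by_cases hAN : A ⊆ interior N
    · refine ⟨x, ?_, hxA, fun h => ?_⟩
      · exact comp_max (F := W ∩ N) hA.pre hpA (fun y hy => ⟨hAW hy, interior_subset (hAN hy)⟩) hxA
      · rcases h with h | h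
        · exact hxB h
        · exact hxC h
    · have hb := bump hA hN hpA hpN hAN
      obtain ⟨z, hz, hz'⟩ := not_subset.1 hb
      have hzAN := comp_sub _ _ hz
      have hzT : z ∈ T := by
        exact comp_max (x := p) isPreconnected_connectedComponentIn
          (mem_comp (F := A ∩ N) ⟨hpA, hpN⟩)
          ((comp_sub _ _).trans (inter_subset_inter_left _ hAW)) hz
      have hzY : z ∉ Y := fun h => hz' (hZN (hTY z hzT h))
      have := hy1 z hzAN.1 hzY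
      exact ⟨z, hzT, hzAN.1, fun h => h.elim this.1 this.2⟩
  have P1 := piece A₁ A₂ A₃ x1 h1 (fun y hy => Or.inl (Or.inl hy)) p1 hx1
    (fun h => hx1' (Or.inl h)) (fun h => hx1' (Or.inr h))
    (fun y hy hyY => ⟨fun h => hyY (Or.inl (Or.inl ⟨hy, h⟩)), fun h => hyY (Or.inl (Or.inr ⟨hy, h⟩))⟩)
    (fun y hy h => h.elim (fun h => Or.inl (Or.inl ⟨hy, h⟩)) (fun h => Or.inl (Or.inr ⟨hy, h⟩)))
  have P2 := piece A₂ A₁ A₃ x2 h2 (fun y hy => Or.inl (Or.inr hy)) p2 hx2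
    (fun h => hx2' (Or.inl h)) (fun h => hx2' (Or.inr h))
    (fun y hy hyY => ⟨fun h => hyY (Or.inl (Or.inl ⟨h, hy⟩)), fun h => hyY (Or.inr ⟨hy, h⟩)⟩)
    (fun y hy h => h.elim (fun h => Or.inl (Or.inl ⟨h, hy⟩)) (fun h => Or.inr ⟨hy, h⟩))
  have P3 := piece A₃ A₁ A₂ x3 h3 (fun y hy => Or.inr hy) p3 hx3
    (fun h => hx3' (Or.inl h)) (fun h => hx3' (Or.inr h))
    (fun y hy hyY => ⟨fun h => hyY (Or.inl (Or.inr ⟨h, hy⟩)), fun h => hyY (Or.inr ⟨h, hy⟩)⟩)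
    (fun y hy h => h.elim (fun h => Or.inl (Or.inr ⟨h, hy⟩)) (fun h => Or.inr ⟨h, hy⟩))
  refine hK T ?_ (triod_mk (A := T ∩ (A₁ \ (A₂ ∪ A₃))) (B := T ∩ (A₂ \ (A₁ ∪ A₃)))
    (C := T ∩ (A₃ \ (A₁ ∪ A₂))) hTc hZc hZT P1 P2 P3 ?_ h1.1 h2.1 h3.1
    (fun x hx => hx.2.1) (fun x hx => hx.2.1) (fun x hx => hx.2.1)
    (fun x hx h => h.2.2 (Or.inl hx)) (fun x hx h => h.2.2 (Or.inl hx))
    (fun x hx h => h.2.2 (Or.inl hx)) (fun x hx h => h.2.2 (Or.inr hx))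
    (fun x hx h => h.2.2 (Or.inr hx)) (fun x hx h => h.2.2 (Or.inr hx)))
  · intro x hx
    rcases (hTsub hx).1 with (h | h) | h
    · exact k1 h
    · exact k2 h
    · exact k3 h
  · ext x
    constructor
    · rintro ⟨hxT, hxZ⟩
      have hxY : x ∉ Y := fun h => hxZ (hTY x hxT h)
      have hxW := (hTsub hxT).1
      have n12 : ¬ (x ∈ A₁ ∧ x ∈ A₂) := fun h => hxY (Or.inl (Or.inl h))
      have n13 : ¬ (x ∈ A₁ ∧ x ∈ A₃) := fun h => hxY (Or.inl (Or.inr h))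
      have n23 : ¬ (x ∈ A₂ ∧ x ∈ A₃) := fun h => hxY (Or.inr h)
      simp only [mem_union, mem_inter_iff, mem_sdiff]
      rcases hxW with (h | h) | h
      · left; left; exact ⟨hxT, h, fun h' => h'.elim (fun h' => n12 ⟨h, h'⟩) (fun h' => n13 ⟨h, h'⟩)⟩
      · left; right; exact ⟨hxT, h, fun h' => h'.elim (fun h' => n12 ⟨h', h⟩) (fun h' => n23 ⟨h, h'⟩)⟩
      · right; exact ⟨hxT, h, fun h' => h'.elim (fun h' => n13 ⟨h', h⟩) (fun h' => n23 ⟨h', h⟩)⟩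
    · rintro ((h | h) | h)
      · refine ⟨h.1, fun hz => ?_⟩
        rcases hZY hz with (h' | h') | h'
        · exact h.2.2 (Or.inl h'.2)
        · exact h.2.2 (Or.inr h'.2)
        · exact h.2.2 (Or.inl h'.1)
      · refine ⟨h.1, fun hz => ?_⟩
        rcases hZY hz with (h' | h') | h'
        · exact h.2.2 (Or.inl h'.1)
        · exact h.2.2 (Or.inl h'.1)
        · exact h.2.2 (Or.inr h'.2)
      · refine ⟨h.1, fun hz => ?_⟩
        rcases hZY hz with (h' | h') | h'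
        · exact h.2.2 (Or.inl h'.1)
        · exact h.2.2 (Or.inl h'.1)
        · exact h.2.2 (Or.inr h'.1)

/-- The key exit lemma. -/
theorem exit_point {K W T : Set X} {w : X} (hK : NoTriod K) (hW : Ctm W) (hWK : W ⊆ K)
    (hT : Ctm T) (hTW : T ⊆ W) (hw : w ∈ W) (hwT : w ∉ T)
    (hα : ∀ U : Set X, IsOpen U → T ⊆ U →
      ∃ L, Ctm L ∧ L ⊆ K ∧ L ⊆ U ∧ (L ∩ T).Nonempty ∧ ¬ L ⊆ W) :
    ∃ x₀ ∈ T, ∀ L : Set X, Ctm L → L ⊆ K → (L ∩ T).Nonempty → x₀ ∉ L → w ∉ L → L ⊆ W := by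
  let I := {U : Set X // IsOpen U ∧ T ⊆ U}
  let R : I → Set X := fun U => {y | y ∉ W ∧ ∃ L, Ctm L ∧ L ⊆ K ∧ L ⊆ U.1 ∧ (L ∩ T).Nonempty ∧ y ∈ L}
  have : Nonempty I := ⟨⟨univ, isOpen_univ, subset_univ _⟩⟩
  have hmono : ∀ U V : I, U.1 ⊆ V.1 → R U ⊆ R V := by
    rintro U V hUV y ⟨hy, L, a, b, c, d, e⟩
    exact ⟨hy, L, a, b, c.trans hUV, d, e⟩
  have hne : (⋂ U : I, closure (R U)).Nonempty := by
    apply IsCompact.nonempty_iInter_of_directed_nonempty_isCompact_isClosed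
    · intro U V
      refine ⟨⟨U.1 ∩ V.1, U.2.1.inter V.2.1, subset_inter U.2.2 V.2.2⟩, ?_, ?_⟩
      · exact closure_mono (hmono _ _ inter_subset_left)
      · exact closure_mono (hmono _ _ inter_subset_right)
    · intro U
      obtain ⟨L, hL, hLK, hLU, hLT, hLW⟩ := hα U.1 U.2.1 U.2.2
      obtain ⟨y, hy, hyW⟩ := not_subset.1 hLW
      exact ⟨y, subset_closure ⟨hyW, L, hL, hLK, hLU, hLT, hy⟩⟩
    · intro U
      exact isClosed_closure.isCompact
    · intro U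
      exact isClosed_closure
  obtain ⟨x₀, hx₀⟩ := hne
  rw [mem_iInter] at hx₀
  have hxT : x₀ ∈ T := by
    by_contra hx
    obtain ⟨N, hN, hTN, hNU⟩ := exists_nhd hT.1 (isOpen_compl_singleton (x := x₀))
      (fun t ht h => hx (by rw [mem_singleton_iff] at h; rwa [← h]))
    have h1 := hx₀ ⟨interior N, isOpen_interior, hTN⟩
    have h2 : closure (R ⟨interior N, isOpen_interior, hTN⟩) ⊆ N := by
      apply closure_minimal _ hN
      rintro y ⟨_, L, _, _, c, _, e⟩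
      exact interior_subset (c e)
    exact hNU (h2 h1) rfl
  refine ⟨x₀, hxT, ?_⟩
  intro L₁ hL₁ hL₁K hL₁T hx₀L₁ hwL₁
  by_contra hL₁W
  obtain ⟨u, huL₁, huW⟩ := not_subset.1 hL₁W
  have huT : u ∉ T := fun h => huW (hTW h)
  let U : I := ⟨({u, w} : Set X)ᶜ, (Set.toFinite _).isClosed.isOpen_compl, by
    intro t ht h
    rcases h with h | h
    · exact huT (by rwa [← h])
    · rw [mem_singleton_iff] at h
      exact hwT (by rwa [← h])⟩
  have h1 : closure (R U) ⊆ L₁ := by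
    apply closure_minimal _ hL₁.1
    rintro y ⟨hyW, L, hL, hLK, hLU, hLT, hyL⟩
    obtain ⟨t, ht⟩ := hT.ne
    have huL : u ∉ L := fun h => hLU h (Or.inl rfl)
    have hwL : w ∉ L := fun h => hLU h (Or.inr rfl)
    rcases sorg hK (hL.union hT hLT) (hL₁.union hT hL₁T) hW (union_subset hLK (hTW.trans hWK))
      (union_subset hL₁K (hTW.trans hWK)) hWK (Or.inr ht) (Or.inr ht) (hTW ht) with h | h | h
    · rcases h (Or.inl hyL) with (h' | h') | h'
      · exact h'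
      · exact absurd (hTW h') hyW
      · exact absurd h' hyW
    · exfalso
      rcases h (Or.inl huL₁) with (h' | h') | h'
      · exact huL h'
      · exact huT h'
      · exact huW h'
    · exfalso
      rcases h hw with (h' | h') | (h' | h')
      · exact hwL h'
      · exact hwT h'
      · exact hwL₁ h'
      · exact hwT h'
  exact hx₀L₁ (h1 (hx₀ U))

end Pool.Agent.Helper52Triod
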