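import Mathlib
import Pool.Agent.Helper52_Triod.Triods

/-!
Local structure: exits and cut points of irreducible continua inside a set without triods.
-/

set_option autoImplicit false

open Set Topology

namespace Pool.Agent.Helper52Triod

variable {X : Type*} [TopologicalSpace X]

/-- Every point of `H` can be joined, inside `K`, to the outside of `H` by a continuum missing any
prescribed other point of `H`. -/
def EH (K H : Set X) : Prop :=
  ∀ p ∈ H, ∀ y ∈ H, p ≠ y → ∃ L, Ctm L ∧ L ⊆ K ∧ p ∈ L ∧ y ∉ L ∧ ¬ L ⊆ H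

theorem EH.mono {K H H' : Set X} (h : EH K H) (h' : H' ⊆ H) : EH K H' := by
  intro p hp y hy hpy
  obtain ⟨L, a, b, c, d, e⟩ := h p (h' hp) y (h' hy) hpy
  exact ⟨L, a, b, c, d, fun f => e (f.trans h')⟩

variable [T2Space X] [CompactSpace X]

theorem exit_end_aux {K H L La : Set X} {a b : X} (hK : NoTriod K) (hHK : H ⊆ K)
    (hH : IrrPt H a b) (hE : EH K H) (hL : Ctm L) (hLK : L ⊆ K) (ha : a ∉ L) (hb : b ∉ L)
    (hLn : ¬ L ⊆ H) (hLa : Ctm La) (hLaK : La ⊆ K) (haLa : a ∈ La) (hLaH : ¬ La ⊆ H)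
    (hbA : b ∉ comp (La ∩ H) a) (hmeet : (L ∩ comp (La ∩ H) a).Nonempty) : False := by
  have haH : a ∈ H := hH.2.1
  have hAc : Ctm (comp (La ∩ H) a) := comp_ctm (hLa.1.inter hH.1.1) ⟨haLa, haH⟩
  have haA : a ∈ comp (La ∩ H) a := mem_comp ⟨haLa, haH⟩
  have hAH : comp (La ∩ H) a ⊆ H := (comp_sub _ _).trans inter_subset_right
  obtain ⟨x₀, hx₀, hx⟩ := exit_point hK hH.1 hHK hAc hAH hH.2.2.1 hbA (by
    intro U hU hAU
    obtain ⟨N, hN, hAN, hNU⟩ := exists_nhd hAc.1 hU hAU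
    have haN : a ∈ N := interior_subset (hAN haA)
    refine ⟨comp (La ∩ N) a, comp_ctm (hLa.1.inter hN) ⟨haLa, haN⟩,
      (comp_sub _ _).trans (inter_subset_left.trans hLaK),
      (comp_sub _ _).trans (inter_subset_right.trans hNU),
      ⟨a, mem_comp ⟨haLa, haN⟩, haA⟩, exit_small hLa hN haLa haH hLaH hAN⟩)
  by_cases hxa : x₀ = a
  · subst hxa
    exact hLn (hx L hL hLK hmeet ha hb)
  · obtain ⟨L₁, hL₁, hL₁K, haL₁, hxL₁, hL₁H⟩ := hE a haH x₀ (hAH hx₀) (Ne.symm hxa)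
    have hA₁c : Ctm (comp (L₁ ∩ H) a) := comp_ctm (hL₁.1.inter hH.1.1) ⟨haL₁, haH⟩
    have haA₁ : a ∈ comp (L₁ ∩ H) a := mem_comp ⟨haL₁, haH⟩
    have hbA₁ : b ∉ comp (L₁ ∩ H) a := by
      intro hbA₁
      have := hH.2.2.2 _ ((comp_sub _ _).trans inter_subset_right) hA₁c haA₁ hbA₁
      exact hxL₁ (comp_sub _ _ (this (hAH hx₀))).1
    obtain ⟨N, hN, hAN, hNU⟩ := exists_nhd hA₁c.1 (isOpen_compl_singleton (x := b))
      (fun t ht h => hbA₁ (by rw [mem_singleton_iff] at h; rwa [← h]))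
    have haN : a ∈ N := interior_subset (hAN haA₁)
    refine exit_small hL₁ hN haL₁ haH hL₁H hAN (hx _ (comp_ctm (hL₁.1.inter hN) ⟨haL₁, haN⟩)
      ((comp_sub _ _).trans (inter_subset_left.trans hL₁K)) ⟨a, mem_comp ⟨haL₁, haN⟩, haA⟩
      (fun h => hxL₁ (comp_sub _ _ h).1) (fun h => hNU (comp_sub _ _ h).2 rfl))

/-- A continuum that meets and leaves an irreducible continuum contains one of its ends. -/
theorem exit_end {K H L : Set X} {a b : X} (hK : NoTriod K) (hHK : H ⊆ K)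
    (hH : IrrPt H a b) (hE : EH K H) (hL : Ctm L) (hLK : L ⊆ K)
    (hLH : (L ∩ H).Nonempty) (hLn : ¬ L ⊆ H) : a ∈ L ∨ b ∈ L := by
  by_contra hcon
  push Not at hcon
  obtain ⟨haL, hbL⟩ := hcon
  obtain ⟨p, hpL, hpH⟩ := hLH
  have hap : a ≠ p := fun h => haL (h ▸ hpL)
  have hbp : b ≠ p := fun h => hbL (h ▸ hpL)
  have haH : a ∈ H := hH.2.1
  have hbH : b ∈ H := hH.2.2.1
  obtain ⟨La, hLa, hLaK, haLa, hpLa, hLaH⟩ := hE a haH p hpH hap
  obtain ⟨Lb, hLb, hLbK, hbLb, hpLb, hLbH⟩ := hE b hbH p hpH hbp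
  have hAc : Ctm (comp (La ∩ H) a) := comp_ctm (hLa.1.inter hH.1.1) ⟨haLa, haH⟩
  have haA : a ∈ comp (La ∩ H) a := mem_comp ⟨haLa, haH⟩
  have hAH : comp (La ∩ H) a ⊆ H := (comp_sub _ _).trans inter_subset_right
  have hALa : comp (La ∩ H) a ⊆ La := (comp_sub _ _).trans inter_subset_left
  have hBc : Ctm (comp (Lb ∩ H) b) := comp_ctm (hLb.1.inter hH.1.1) ⟨hbLb, hbH⟩
  have hbB : b ∈ comp (Lb ∩ H) b := mem_comp ⟨hbLb, hbH⟩
  have hBH : comp (Lb ∩ H) b ⊆ H := (comp_sub _ _).trans inter_subset_right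
  have hBLb : comp (Lb ∩ H) b ⊆ Lb := (comp_sub _ _).trans inter_subset_left
  have hbA : b ∉ comp (La ∩ H) a := fun h =>
    hpLa (hALa (hH.2.2.2 _ hAH hAc haA h hpH))
  have haB : a ∉ comp (Lb ∩ H) b := fun h =>
    hpLb (hBLb (hH.2.2.2 _ hBH hBc h hbB hpH))
  by_cases hmA : (L ∩ comp (La ∩ H) a).Nonempty
  · exact exit_end_aux hK hHK hH hE hL hLK haL hbL hLn hLa hLaK haLa hLaH hbA hmA
  by_cases hmB : (L ∩ comp (Lb ∩ H) b).Nonempty
  · exact exit_end_aux hK hHK hH.symm hE hL hLK hbL haL hLn hLb hLbK hbLb hLbH haB hmB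
  have hEc : Ctm (comp (L ∩ H) p) := comp_ctm (hL.1.inter hH.1.1) ⟨hpL, hpH⟩
  have hpE : p ∈ comp (L ∩ H) p := mem_comp ⟨hpL, hpH⟩
  have hEL : comp (L ∩ H) p ⊆ L := (comp_sub _ _).trans inter_subset_left
  have dAB : Disjoint (comp (La ∩ H) a) (comp (Lb ∩ H) b) := by
    rw [Set.disjoint_left]
    intro z hzA hzB
    have := hH.2.2.2 _ (union_subset hAH hBH) (hAc.union hBc ⟨z, hzA, hzB⟩) (Or.inl haA)
      (Or.inr hbB) hpH
    rcases this with h | h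
    · exact hpLa (hALa h)
    · exact hpLb (hBLb h)
  have dAE : Disjoint (comp (La ∩ H) a) (comp (L ∩ H) p) := by
    rw [Set.disjoint_left]
    intro z hzA hzE
    exact hmA ⟨z, hEL hzE, hzA⟩
  have dBE : Disjoint (comp (Lb ∩ H) b) (comp (L ∩ H) p) := by
    rw [Set.disjoint_left]
    intro z hzB hzE
    exact hmB ⟨z, hEL hzE, hzB⟩
  obtain ⟨N₁, N₂, N₃, hN₁, hN₂, hN₃, i1, i2, i3, D12, D13, D23⟩ :=
    exists_nhd3 hAc.1 hBc.1 hEc.1 dAB dAE dBE
  have ha1 : a ∈ N₁ := interior_subset (i1 haA)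
  have hb2 : b ∈ N₂ := interior_subset (i2 hbB)
  have hp3 : p ∈ N₃ := interior_subset (i3 hpE)
  have dis : ∀ (A B N N' : Set X) (x x' : X), Disjoint N N' →
      Disjoint (comp (A ∩ N) x) (comp (B ∩ N') x') := by
    intro A B N N' x x' h
    exact h.mono ((comp_sub _ _).trans inter_subset_right)
      ((comp_sub _ _).trans inter_subset_right)
  refine hK _ ?_ (triod_of_exits hH.1 (comp_ctm (hLa.1.inter hN₁) ⟨haLa, ha1⟩)
    (comp_ctm (hLb.1.inter hN₂) ⟨hbLb, hb2⟩) (comp_ctm (hL.1.inter hN₃) ⟨hpL, hp3⟩)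
    (dis _ _ _ _ _ _ D12) (dis _ _ _ _ _ _ D13) (dis _ _ _ _ _ _ D23)
    ⟨a, haH, mem_comp ⟨haLa, ha1⟩⟩ ⟨b, hbH, mem_comp ⟨hbLb, hb2⟩⟩ ⟨p, hpH, mem_comp ⟨hpL, hp3⟩⟩
    (exit_small hLa hN₁ haLa haH hLaH i1) (exit_small hLb hN₂ hbLb hbH hLbH i2)
    (exit_small hL hN₃ hpL hpH hLn i3))
  exact union_subset (union_subset (union_subset hHK
    ((comp_sub _ _).trans (inter_subset_left.trans hLaK)))
    ((comp_sub _ _).trans (inter_subset_left.trans hLbK)))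
    ((comp_sub _ _).trans (inter_subset_left.trans hLK))

/-- Component version of `exit_end`. -/
theorem exit_comp {K H L : Set X} {a b e : X} (hK : NoTriod K) (hHK : H ⊆ K)
    (hH : IrrPt H a b) (hE : EH K H) (hL : Ctm L) (hLK : L ⊆ K)
    (heL : e ∈ L) (heH : e ∈ H) (hLn : ¬ L ⊆ H) :
    a ∈ comp (L ∩ H) e ∨ b ∈ comp (L ∩ H) e := by
  by_contra hcon
  push Not at hcon
  obtain ⟨ha, hb⟩ := hcon
  have hEc : IsClosed (comp (L ∩ H) e) := comp_closed (hL.1.inter hH.1.1) e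
  obtain ⟨N, hN, hEN, hNU⟩ := exists_nhd (U := ({a, b} : Set X)ᶜ) hEc
    (Set.toFinite _).isClosed.isOpen_compl (by
      intro t ht h
      rcases h with h | h
      · exact ha (by rwa [← h])
      · rw [mem_singleton_iff] at h
        exact hb (by rwa [← h]))
  have heN : e ∈ N := interior_subset (hEN (mem_comp ⟨heL, heH⟩))
  rcases exit_end hK hHK hH hE (comp_ctm (hL.1.inter hN) ⟨heL, heN⟩)
    ((comp_sub _ _).trans (inter_subset_left.trans hLK)) ⟨e, mem_comp ⟨heL, heN⟩, heH⟩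
    (exit_small hL hN heL heH hLn hEN) with h | h
  · exact hNU (comp_sub _ _ h).2 (Or.inl rfl)
  · exact hNU (comp_sub _ _ h).2 (Or.inr rfl)

/-- Every point other than the two ends is a cut point of an irreducible continuum. -/
theorem cut_point {K H : Set X} {a b p : X} (hK : NoTriod K) (hHK : H ⊆ K)
    (hH : IrrPt H a b) (hE : EH K H) (hp : p ∈ H) (hpa : p ≠ a) (hpb : p ≠ b) :
    ∃ H₁ W : Set X, IrrPt H₁ a p ∧ IrrPt W p b ∧ H = H₁ ∪ W ∧ H₁ ∩ W = {p} ∧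
      b ∉ H₁ ∧ a ∉ W := by
  have haH : a ∈ H := hH.2.1
  have hbH : b ∈ H := hH.2.2.1
  -- step 1: a continuum in `H` containing `a` and `p`, missing `b`
  obtain ⟨L₁, hL₁, hL₁K, hpL₁, hbL₁, hL₁H⟩ := hE p hp b hbH hpb
  have hE₁c : Ctm (comp (L₁ ∩ H) p) := comp_ctm (hL₁.1.inter hH.1.1) ⟨hpL₁, hp⟩
  have haE₁ : a ∈ comp (L₁ ∩ H) p :=
    (exit_comp hK hHK hH hE hL₁ hL₁K hpL₁ hp hL₁H).resolve_right
      (fun h => hbL₁ (comp_sub _ _ h).1)
  obtain ⟨H₁, hH₁E, hH₁⟩ := exists_irrPt hE₁c haE₁ (mem_comp ⟨hpL₁, hp⟩)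
  have hbH₁ : b ∉ H₁ := fun h => hbL₁ (comp_sub _ _ (hH₁E h)).1
  have hH₁H : H₁ ⊆ H := hH₁E.trans ((comp_sub _ _).trans inter_subset_right)
  -- step 2: a continuum in `H` containing `b` and `p`, missing `a`
  obtain ⟨L₂, hL₂, hL₂K, hpL₂, haL₂, hL₂H⟩ := hE p hp a haH hpa
  have hE₂c : Ctm (comp (L₂ ∩ H) p) := comp_ctm (hL₂.1.inter hH.1.1) ⟨hpL₂, hp⟩
  have hbE₂ : b ∈ comp (L₂ ∩ H) p :=
    (exit_comp hK hHK hH hE hL₂ hL₂K hpL₂ hp hL₂H).resolve_left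
      (fun h => haL₂ (comp_sub _ _ h).1)
  have hE₂H : comp (L₂ ∩ H) p ⊆ H := (comp_sub _ _).trans inter_subset_right
  -- step 3: the closure of the rest
  set W : Set X := closure (H \ H₁) with hWdef
  have hWH : W ⊆ H := closure_minimal sdiff_subset hH.1.1
  have hWcl : IsClosed W := isClosed_closure
  have hHe : H = H₁ ∪ W := by
    apply Subset.antisymm
    · intro y hy
      by_cases h : y ∈ H₁
      · exact Or.inl h
      · exact Or.inr (subset_closure ⟨hy, h⟩)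
    · exact union_subset hH₁H hWH
  have hbW : b ∈ W := subset_closure ⟨hbH, hbH₁⟩
  have W_min : ∀ Q : Set X, IsClosed Q → H ⊆ H₁ ∪ Q → W ⊆ Q := by
    intro Q hQ hQH
    apply closure_minimal _ hQ
    rintro y ⟨hy, hy'⟩
    exact (hQH hy).resolve_left hy'
  have hWpre : IsPreconnected W := by
    have aux : ∀ F G : Set X, IsClosed F → IsClosed G → W ⊆ F ∪ G →
        (∀ x ∈ W, x ∈ F → x ∈ G → False) → b ∈ F → W ⊆ F := by
      intro F G hF hG hFG hd hbF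
      have h1 : Ctm (H₁ ∪ (W ∩ F)) := by
        refine union_part (H := H) (G := W ∩ G) hH.1.pre hH₁.1 (hWcl.inter hF) (hWcl.inter hG) ?_ ?_
        · conv_lhs => rw [hHe]
          ext y
          constructor
          · rintro (h | h)
            · exact Or.inl (Or.inl h)
            · rcases hFG h with h' | h'
              · exact Or.inl (Or.inr ⟨h, h'⟩)
              · exact Or.inr ⟨h, h'⟩
          · rintro ((h | h) | h)
            · exact Or.inl h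
            · exact Or.inr h.1
            · exact Or.inr h.1
        · rw [Set.disjoint_left]
          rintro y ⟨hy, hyF⟩ ⟨_, hyG⟩
          exact hd y hy hyF hyG
      have h2 := hH.2.2.2 _ (union_subset hH₁H (inter_subset_left.trans hWH)) h1
        (Or.inl hH₁.2.1) (Or.inr ⟨hbW, hbF⟩)
      exact (W_min _ (hWcl.inter hF) h2).trans inter_subset_right
    apply pre_of_split
    intro F G hF hG hFG hd
    rcases hFG hbW with h | h
    · exact Or.inl (aux F G hF hG hFG hd h)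
    · exact Or.inr (aux G F hG hF (by rwa [union_comm G F]) (fun x hx h1 h2 => hd x hx h2 h1) h)
  have hWc : Ctm W := ⟨hWcl, ⟨b, hbW⟩, hWpre⟩
  have haW : a ∉ W := by
    intro h
    have h1 := hH.2.2.2 _ (union_subset hH₁H hE₂H)
      (hH₁.1.union hE₂c ⟨p, hH₁.2.2.1, mem_comp ⟨hpL₂, hp⟩⟩) (Or.inl hH₁.2.1) (Or.inr hbE₂)
    exact haL₂ (comp_sub _ _ (W_min _ hE₂c.1 h1 h)).1
  have hWK : W ⊆ K := hWH.trans hHK
  have hH₁K : H₁ ⊆ K := hH₁H.trans hHK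
  have hWn : ¬ W ⊆ H₁ := fun h => hbH₁ (h hbW)
  -- step 4: `W ∩ H₁` is connected and contains `p`
  have hcompZ : ∀ z, z ∈ W → z ∈ H₁ → p ∈ comp (W ∩ H₁) z := by
    intro z hzW hzH
    exact (exit_comp hK hH₁K hH₁ (hE.mono hH₁H) hWc hWK hzW hzH hWn).resolve_left
      (fun h => haW (comp_sub _ _ h).1)
  obtain ⟨z₀, hz₀W, hz₀H⟩ : ∃ z, z ∈ W ∧ z ∈ H₁ := by
    by_contra hcon
    push Not at hcon
    rcases pre_split hH.1.pre hH₁.1.1 hWcl hHe.subset (fun x _ h1 h2 => hcon x h2 h1) with h | h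
    · exact hbH₁ (h hbH)
    · exact haW (h haH)
  have hpW : p ∈ W := (comp_sub _ _ (hcompZ z₀ hz₀W hz₀H)).1
  have hpH₁ : p ∈ H₁ := hH₁.2.2.1
  have hZe : comp (W ∩ H₁) p = W ∩ H₁ := by
    apply Subset.antisymm (comp_sub _ _)
    rintro z ⟨hzW, hzH⟩
    rw [← comp_eq_of_mem (hcompZ z hzW hzH)]
    exact mem_comp ⟨hzW, hzH⟩
  have hZc : Ctm (W ∩ H₁) := by
    rw [← hZe]
    exact comp_ctm (hWcl.inter hH₁.1.1) ⟨hpW, hpH₁⟩
  -- step 5: `W ∩ H₁ = {p}`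
  have hsingle : ∀ q, q ∈ W → q ∈ H₁ → q = p := by
    intro q hqW hqH
    by_contra hqp
    obtain ⟨x₀, hx₀, hx⟩ := exit_point (W := W) (T := W ∩ H₁) (w := b) hK hWc hWK hZc
      inter_subset_left hbW (fun h => hbH₁ h.2) (by
        intro U hU hZU
        obtain ⟨N, hN, hZN, hNU⟩ := exists_nhd hZc.1 hU hZU
        have hpN : p ∈ N := interior_subset (hZN ⟨hpW, hpH₁⟩)
        by_cases hH₁N : H₁ ⊆ interior N
        · exact ⟨H₁, hH₁.1, hH₁K, hH₁N.trans (interior_subset.trans hNU), ⟨p, hpH₁, hpW, hpH₁⟩,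
            fun h => haW (h hH₁.2.1)⟩
        · refine ⟨comp (H₁ ∩ N) p, comp_ctm (hH₁.1.1.inter hN) ⟨hpH₁, hpN⟩,
            (comp_sub _ _).trans (inter_subset_left.trans hH₁K),
            (comp_sub _ _).trans (inter_subset_right.trans hNU),
            ⟨p, mem_comp ⟨hpH₁, hpN⟩, hpW, hpH₁⟩, ?_⟩
          intro h
          apply bump hH₁.1 hN hpH₁ hpN hH₁N
          intro y hy
          exact hZN ⟨h hy, (comp_sub _ _ hy).1⟩)
    obtain ⟨z, hz, hzx⟩ : ∃ z, z ∈ W ∩ H₁ ∧ z ≠ x₀ := by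
      by_cases h : x₀ = p
      · exact ⟨q, ⟨hqW, hqH⟩, by rw [h]; exact hqp⟩
      · exact ⟨p, ⟨hpW, hpH₁⟩, Ne.symm h⟩
    have hzH : z ∈ H := hH₁H hz.2
    obtain ⟨L, hL, hLK, hzL, hxL, hLH⟩ := hE z hzH x₀ (hH₁H hx₀.2) hzx
    have hEc : Ctm (comp (L ∩ H) z) := comp_ctm (hL.1.inter hH.1.1) ⟨hzL, hzH⟩
    have hzE : z ∈ comp (L ∩ H) z := mem_comp ⟨hzL, hzH⟩
    have hEH : comp (L ∩ H) z ⊆ H := (comp_sub _ _).trans inter_subset_right
    have hbE : b ∉ comp (L ∩ H) z := by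
      intro h
      have h1 := hH.2.2.2 _ (union_subset hH₁H hEH) (hH₁.1.union hEc ⟨z, hz.2, hzE⟩)
        (Or.inl hH₁.2.1) (Or.inr h)
      exact hxL (comp_sub _ _ (W_min _ hEc.1 h1 hx₀.1)).1
    have haE : a ∈ comp (L ∩ H) z :=
      (exit_comp hK hHK hH hE hL hLK hzL hzH hLH).resolve_right hbE
    exact haW (hx _ hEc (hEH.trans hHK) ⟨z, hzE, hz⟩ (fun h => hxL (comp_sub _ _ h).1) hbE haE)
  refine ⟨H₁, W, hH₁, ⟨hWc, hpW, hbW, ?_⟩, hHe, ?_, hbH₁, haW⟩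
  · intro K' hK'W hK' hpK' hbK'
    exact W_min _ hK'.1 (hH.2.2.2 _ (union_subset hH₁H (hK'W.trans hWH))
      (hH₁.1.union hK' ⟨p, hpH₁, hpK'⟩) (Or.inl hH₁.2.1) (Or.inr hbK'))
  · ext y
    constructor
    · rintro ⟨h1, h2⟩
      exact hsingle y h2 h1
    · rintro rfl
      exact ⟨hpH₁, hpW⟩

end Pool.Agent.Helper52Triod
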