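import Mathlib
import Pool.Agent.Helper52_Triod.Local

/-!
Thick and thin sets, regular and good points.
-/

set_option autoImplicit false

open Set Topology

namespace Pool.Agent.Helper52Triod

/-- A continuum with nonempty interior. -/
def Big {X : Type*} [TopologicalSpace X] (C : Set X) : Prop := Ctm C ∧ (interior C).Nonempty

/-- Every neighbourhood of `F` contains a continuum with nonempty interior. -/
def Thick {X : Type*} [TopologicalSpace X] (F : Set X) : Prop :=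
  ∀ U : Set X, IsOpen U → F ⊆ U → ∃ C, Big C ∧ C ⊆ U

/-- The standing hypotheses. -/
structure Hyp (X : Type*) [TopologicalSpace X] : Prop where
  meet : ∀ A B : Set X, Big A → Big B → (A ∩ B).Nonempty
  nwc : ∀ x p q : X, p ≠ x → q ≠ x → ∃ K : Set X, Ctm K ∧ p ∈ K ∧ q ∈ K ∧ x ∉ K
  cnt : ∀ 𝒯 : Set (Set X), 𝒯.PairwiseDisjoint id → (∀ T ∈ 𝒯, Triod T) → 𝒯.Countable

variable {X : Type*} [TopologicalSpace X]

theorem Thick.mono {F G : Set X} (h : Thick F) (h' : F ⊆ G) : Thick G :=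
  fun U hU hG => h U hU (h'.trans hG)

theorem thin_mono {F G : Set X} (h : ¬ Thick G) (h' : F ⊆ G) : ¬ Thick F :=
  fun h2 => h (h2.mono h')

theorem Big.thick {C : Set X} (h : Big C) : Thick C := fun _ _ hU => ⟨C, h, hU⟩

theorem thin_interior {C : Set X} (hC : Ctm C) (h : ¬ Thick C) : interior C = ∅ := by
  by_contra hne
  exact h (Big.thick ⟨hC, nonempty_iff_ne_empty.2 hne⟩)

theorem thin_nowhereDense {C : Set X} (hC : Ctm C) (h : ¬ Thick C) : IsNowhereDense C := by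
  rw [hC.1.isNowhereDense_iff]
  exact thin_interior hC h

variable [T2Space X] [CompactSpace X]

theorem thick_meet (hX : Hyp X) {F G : Set X} (hF : IsClosed F) (hG : IsClosed G)
    (h1 : Thick F) (h2 : Thick G) : (F ∩ G).Nonempty := by
  by_contra hne
  have hd : Disjoint F G := by
    rw [Set.disjoint_left]; intro x hx hx'; exact hne ⟨x, hx, hx'⟩
  obtain ⟨u, v, hu, hv, hFu, hGv, huv⟩ := normal_separation hF hG hd
  obtain ⟨C, hC, hCu⟩ := h1 u hu hFu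
  obtain ⟨D, hD, hDv⟩ := h2 v hv hGv
  obtain ⟨x, hx, hx'⟩ := hX.meet C D hC hD
  exact (Set.disjoint_left.1 huv) (hCu hx) (hDv hx')

theorem thin_nhd {F : Set X} (hF : IsClosed F) (h : ¬ Thick F) :
    ∃ V : Set X, IsClosed V ∧ F ⊆ interior V ∧ ¬ Thick V := by
  unfold Thick at h
  push Not at h
  obtain ⟨U, hU, hFU, hno⟩ := h
  obtain ⟨N, hN, hFN, hNU⟩ := exists_nhd hF hU hFU
  refine ⟨N, hN, hFN, ?_⟩
  intro hT
  obtain ⟨C, hC, hCU⟩ := hT U hU hNU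
  exact hno C hC hCU

/-- A countable family of closed neighbourhoods. -/
theorem exists_fam (X : Type*) [TopologicalSpace X] [T2Space X] [CompactSpace X]
    [SecondCountableTopology X] : ∃ ℬ : Set (Set X), ℬ.Countable ∧ (∀ D ∈ ℬ, IsClosed D) ∧
      ∀ F U : Set X, IsClosed F → IsOpen U → F ⊆ U → ∃ D ∈ ℬ, F ⊆ interior D ∧ D ⊆ U := by
  obtain ⟨b, hbc, -, hb⟩ := TopologicalSpace.exists_countable_basis X
  refine ⟨(fun s => closure (⋃₀ s)) '' {s | s ⊆ b ∧ s.Finite}, ?_, ?_, ?_⟩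
  · apply Set.Countable.image
    have := Set.countable_ofPred_finite_subset hbc
    refine this.mono ?_
    rintro s ⟨h1, h2⟩
    exact ⟨h2, h1⟩
  · rintro _ ⟨s, _, rfl⟩
    exact isClosed_closure
  · intro F U hF hU hFU
    obtain ⟨N, hN, hFN, hNU⟩ := exists_nhd hF hU hFU
    have hcov : F ⊆ ⋃ i ∈ {V ∈ b | V ⊆ interior N}, id i := by
      intro x hx
      obtain ⟨V, hVb, hxV, hVN⟩ := hb.exists_subset_of_mem_open (hFN hx) isOpen_interior
      simp only [mem_iUnion]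
      exact ⟨V, ⟨hVb, hVN⟩, hxV⟩
    obtain ⟨s, hs, hsf, hFs⟩ := hF.isCompact.elim_finite_subcover_image
      (fun V hV => hb.isOpen hV.1) hcov
    refine ⟨closure (⋃₀ s), ⟨s, ⟨fun V hV => (hs hV).1, hsf⟩, rfl⟩, ?_, ?_⟩
    · have ho : IsOpen (⋃₀ s) := isOpen_sUnion fun V hV => hb.isOpen (hs hV).1
      refine Subset.trans ?_ (ho.subset_interior_iff.2 subset_closure)
      intro x hx
      have := hFs hx
      simp only [mem_iUnion] at this
      obtain ⟨V, hV, hxV⟩ := this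
      exact ⟨V, hV, hxV⟩
    · refine (closure_minimal ?_ hN).trans hNU
      rintro x ⟨V, hV, hxV⟩
      exact interior_subset ((hs hV).2 hxV)

omit [T2Space X] [CompactSpace X] in
theorem interior_singleton_empty [T1Space X] [ConnectedSpace X] [Nontrivial X] (y : X) :
    interior ({y} : Set X) = ∅ := by
  by_contra hne
  obtain ⟨z, hz⟩ := nonempty_iff_ne_empty.2 hne
  have hzy : z ∈ ({y} : Set X) := interior_subset hz
  rw [mem_singleton_iff] at hzy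
  have hopen : IsOpen ({y} : Set X) := by
    rw [← interior_eq_iff_isOpen]
    apply Subset.antisymm interior_subset
    rintro w rfl
    rwa [hzy] at hz
  have : IsClopen ({y} : Set X) := ⟨isClosed_singleton, hopen⟩
  rcases isClopen_iff.1 this with h | h
  · exact (singleton_ne_empty y) h
  · obtain ⟨w, hw⟩ := exists_ne y
    have : w ∈ ({y} : Set X) := by rw [h]; trivial
    exact hw this

/-- Every point lies in a continuum with nonempty interior missing a prescribed other point. -/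
theorem nwc_big [SecondCountableTopology X] [ConnectedSpace X] [Nontrivial X] (hX : Hyp X)
    {x y : X} (hxy : x ≠ y) : ∃ C : Set X, Big C ∧ x ∈ C ∧ y ∉ C := by
  obtain ⟨ℬ, hℬc, hℬcl, hℬ⟩ := exists_fam X
  set 𝒟 : Set (Set X) := insert {y} ((fun D => comp D x) '' {D ∈ ℬ | x ∈ D ∧ y ∉ D}) with h𝒟
  have h𝒟c : 𝒟.Countable := ((hℬc.mono (sep_subset _ _)).image _).insert _
  have h𝒟cl : ∀ D ∈ 𝒟, IsClosed D := by
    rintro D (rfl | ⟨E, hE, rfl⟩)
    · exact isClosed_singleton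
    · exact comp_closed (hℬcl E hE.1) x
  have hcov : ⋃₀ 𝒟 = univ := by
    rw [eq_univ_iff_forall]
    intro z
    by_cases hzy : z = y
    · exact ⟨{y}, Or.inl rfl, hzy⟩
    · obtain ⟨K, hK, hxK, hzK, hyK⟩ := hX.nwc y x z hxy hzy
      obtain ⟨D, hD, hKD, hDU⟩ := hℬ K ({y}ᶜ) hK.1 isOpen_compl_singleton
        (fun t ht h => hyK (by rw [mem_singleton_iff] at h; rwa [← h]))
      refine ⟨comp D x, Or.inr ⟨D, ⟨hD, interior_subset (hKD hxK), fun h => hDU h rfl⟩, rfl⟩, ?_⟩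
      exact comp_max hK.pre hxK (hKD.trans interior_subset) hzK
  obtain ⟨D, hD, hDi⟩ : ∃ D ∈ 𝒟, (interior D).Nonempty := by
    by_contra hcon
    push Not at hcon
    have : IsMeagre (univ : Set X) := by
      rw [← hcov, sUnion_eq_biUnion]
      apply isMeagre_biUnion h𝒟c
      intro D hD
      apply IsNowhereDense.isMeagre
      rw [(h𝒟cl D hD).isNowhereDense_iff]
      exact hcon D hD
    exact not_isMeagre_of_isOpen isOpen_univ univ_nonempty this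
  rcases hD with rfl | ⟨E, hE, rfl⟩
  · rw [interior_singleton_empty] at hDi
    exact absurd hDi not_nonempty_empty
  · exact ⟨comp E x, ⟨comp_ctm (hℬcl E hE.1) hE.2.1, hDi⟩, mem_comp hE.2.1,
      fun h => hE.2.2 (comp_sub _ _ h)⟩

theorem singleton_thin [SecondCountableTopology X] [ConnectedSpace X] [Nontrivial X] (hX : Hyp X)
    (x : X) : ¬ Thick ({x} : Set X) := by
  intro h
  obtain ⟨y, hy⟩ := exists_ne x
  obtain ⟨C, hC, hyC, hxC⟩ := nwc_big hX hy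
  obtain ⟨z, hz, hz'⟩ := thick_meet hX hC.1.1 isClosed_singleton hC.thick h
  rw [mem_singleton_iff] at hz'
  exact hxC (hz' ▸ hz)


/-- `x` is regular if its components in thin closed sets contain no triods. -/
def Reg (x : X) : Prop := ∀ V : Set X, IsClosed V → ¬ Thick V → x ∈ V → NoTriod (comp V x)

/-- `x` is good if it is regular and the union of two thin continua through `x` is thin. -/
def Good (x : X) : Prop :=
  Reg x ∧ ∀ A B : Set X, Ctm A → Ctm B → x ∈ A → x ∈ B → ¬ Thick A → ¬ Thick B → ¬ Thick (A ∪ B)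

theorem thin_fam {ℬ : Set (Set X)}
    (hℬ : ∀ F U : Set X, IsClosed F → IsOpen U → F ⊆ U → ∃ D ∈ ℬ, F ⊆ interior D ∧ D ⊆ U)
    {V : Set X} (hV : IsClosed V) (h : ¬ Thick V) :
    ∃ D ∈ ℬ, V ⊆ interior D ∧ ¬ Thick D := by
  obtain ⟨W, hW, hVW, hWt⟩ := thin_nhd hV h
  obtain ⟨D, hD, hVD, hDW⟩ := hℬ V (interior W) hV isOpen_interior hVW
  exact ⟨D, hD, hVD, thin_mono hWt (hDW.trans interior_subset)⟩

omit [T2Space X] [CompactSpace X] in
theorem comp_thin_nowhereDense {V : Set X} (hV : IsClosed V) (h : ¬ Thick V) {x : X} (hx : x ∈ V) :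
    IsNowhereDense (comp V x) :=
  thin_nowhereDense (comp_ctm hV hx) (thin_mono h (comp_sub _ _))

theorem nonReg_meagre [SecondCountableTopology X] (hX : Hyp X) :
    IsMeagre {x : X | ¬ Reg x} := by
  obtain ⟨ℬ, hℬc, hℬcl, hℬ⟩ := exists_fam X
  have key : ∀ D ∈ {D ∈ ℬ | ¬ Thick D}, IsMeagre {x : X | x ∈ D ∧ ¬ NoTriod (comp D x)} := by
    rintro D ⟨hDℬ, hDt⟩
    have hDcl := hℬcl D hDℬ
    set 𝒞 : Set (Set X) := {C | ∃ x ∈ D, C = comp D x ∧ ∃ T ⊆ C, Triod T} with h𝒞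
    have hch : ∀ C : Set X, ∃ T : Set X, C ∈ 𝒞 → T ⊆ C ∧ Triod T := by
      intro C
      by_cases hC : C ∈ 𝒞
      · obtain ⟨x, hx, hC', T, hT, hT'⟩ := hC
        exact ⟨T, fun _ => ⟨hT, hT'⟩⟩
      · exact ⟨∅, fun h => absurd h hC⟩
    choose f hf using hch
    have hdis : ∀ C ∈ 𝒞, ∀ C' ∈ 𝒞, C ≠ C' → Disjoint C C' := by
      rintro C ⟨x, hx, rfl, _⟩ C' ⟨y, hy, rfl, _⟩ hne
      apply comp_disj
      intro hyx
      exact hne (comp_eq_of_mem hyx)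
    have hfne : ∀ C ∈ 𝒞, (f C).Nonempty := fun C hC => (hf C hC).2.2.1.1
    have himg : (f '' 𝒞).Countable := by
      apply hX.cnt
      · rintro _ ⟨C, hC, rfl⟩ _ ⟨C', hC', rfl⟩ hne
        have hne' : C ≠ C' := fun h => hne (by rw [h])
        exact (hdis C hC C' hC' hne').mono (hf C hC).1 (hf C' hC').1
      · rintro _ ⟨C, hC, rfl⟩
        exact (hf C hC).2
    have h𝒞c : 𝒞.Countable := by
      refine (mapsTo_image f 𝒞).countable_of_injOn ?_ himg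
      intro C hC C' hC' heq
      by_contra hne
      obtain ⟨z, hz⟩ := hfne C hC
      exact (Set.disjoint_left.1 (hdis C hC C' hC' hne)) ((hf C hC).1 hz)
        ((hf C' hC').1 (heq ▸ hz))
    have hm : IsMeagre (⋃ C ∈ 𝒞, C) := by
      apply isMeagre_biUnion h𝒞c
      rintro C ⟨x, hx, rfl, _⟩
      exact (comp_thin_nowhereDense hDcl hDt hx).isMeagre
    refine hm.mono ?_
    rintro x ⟨hxD, hx⟩
    simp only [NoTriod, not_forall] at hx
    obtain ⟨T, hT, hT'⟩ := hx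
    simp only [mem_iUnion]
    exact ⟨comp D x, ⟨x, hxD, rfl, T, hT, not_not.1 hT'⟩, mem_comp hxD⟩
  refine (isMeagre_biUnion (hℬc.mono (sep_subset _ _)) key).mono ?_
  intro x hx
  simp only [mem_setOf_eq, Reg, not_forall] at hx
  obtain ⟨V, hV, hVt, hxV, hx⟩ := hx
  obtain ⟨D, hD, hVD, hDt⟩ := thin_fam hℬ hV hVt
  simp only [mem_iUnion]
  refine ⟨D, ⟨hD, hDt⟩, interior_subset (hVD hxV), fun h => hx (h.mono ?_)⟩
  exact comp_max isPreconnected_connectedComponentIn (mem_comp hxV)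
    ((comp_sub _ _).trans (hVD.trans interior_subset))

/-- The sets to which the local theory applies. -/
def OK (H : Set X) : Prop :=
  ∃ (x : X) (V : Set X), Reg x ∧ IsClosed V ∧ ¬ Thick V ∧ x ∈ V ∧ H ⊆ comp V x ∧ H ⊆ interior V

omit [T2Space X] [CompactSpace X] in
theorem OK.mono {H H' : Set X} (h : OK H) (h' : H' ⊆ H) : OK H' := by
  obtain ⟨x, V, a, b, c, d, e, f⟩ := h
  exact ⟨x, V, a, b, c, d, h'.trans e, h'.trans f⟩

theorem ok_of_reg {x : X} (hx : Reg x) {H : Set X} (hH : Ctm H) (hxH : x ∈ H) (ht : ¬ Thick H) :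
    OK H := by
  obtain ⟨V, hV, hHV, hVt⟩ := thin_nhd hH.1 ht
  exact ⟨x, V, hx, hV, hVt, interior_subset (hHV hxH),
    comp_max hH.pre hxH (hHV.trans interior_subset), hHV⟩

omit [T2Space X] [CompactSpace X] in
theorem OK.noTriod {H : Set X} (h : OK H) : NoTriod H := by
  obtain ⟨x, V, hx, hV, hVt, hxV, hH, hHV⟩ := h
  exact (hx V hV hVt hxV).mono hH

theorem local_cont {V H L : Set X} {x e : X} (hV : IsClosed V) (hxV : x ∈ V)
    (hH : H ⊆ comp V x) (hHV : H ⊆ interior V) (hL : Ctm L) (heL : e ∈ L) (heH : e ∈ H)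
    (hLH : ¬ L ⊆ H) :
    Ctm (comp (L ∩ V) e) ∧ comp (L ∩ V) e ⊆ comp V x ∧ e ∈ comp (L ∩ V) e ∧
      ¬ comp (L ∩ V) e ⊆ H := by
  have heV : e ∈ V := interior_subset (hHV heH)
  refine ⟨comp_ctm (hL.1.inter hV) ⟨heL, heV⟩, ?_, mem_comp (F := L ∩ V) ⟨heL, heV⟩, ?_⟩
  · rw [comp_eq_of_mem (hH heH)]
    exact comp_max isPreconnected_connectedComponentIn (mem_comp (F := L ∩ V) ⟨heL, heV⟩)
      ((comp_sub _ _).trans inter_subset_right)
  · by_cases hLV : L ⊆ interior V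
    · have : L ∩ V = L := inter_eq_left.2 (hLV.trans interior_subset)
      rw [this, comp_eq_self hL.pre heL]
      exact hLH
    · intro h
      exact bump hL hV heL heV hLV (h.trans hHV)

theorem OK.eh [SecondCountableTopology X] [ConnectedSpace X] [Nontrivial X] (hX : Hyp X)
    {V H : Set X} {x : X} (hV : IsClosed V) (hVt : ¬ Thick V) (hxV : x ∈ V)
    (hH : H ⊆ comp V x) (hHV : H ⊆ interior V) : EH (comp V x) H := by
  intro p hp y hy hpy
  obtain ⟨C, hC, hpC, hyC⟩ := nwc_big hX hpy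
  have hCH : ¬ C ⊆ H := fun h => hVt (hC.thick.mono (h.trans (hH.trans (comp_sub _ _))))
  obtain ⟨h1, h2, h3, h4⟩ := local_cont hV hxV hH hHV hC.1 hpC hp hCH
  exact ⟨_, h1, h2, h3, fun h => hyC (comp_sub _ _ h).1, h4⟩

section
variable [SecondCountableTopology X] [ConnectedSpace X] [Nontrivial X]

theorem exit_comp_g (hX : Hyp X) {H L : Set X} {a b e : X} (hO : OK H) (hH : IrrPt H a b)
    (hL : Ctm L) (heL : e ∈ L) (heH : e ∈ H) (hLn : ¬ L ⊆ H) :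
    a ∈ comp (L ∩ H) e ∨ b ∈ comp (L ∩ H) e := by
  obtain ⟨x, V, hx, hV, hVt, hxV, hHx, hHV⟩ := hO
  obtain ⟨h1, h2, h3, h4⟩ := local_cont hV hxV hHx hHV hL heL heH hLn
  have hsub : comp (comp (L ∩ V) e ∩ H) e ⊆ comp (L ∩ H) e :=
    comp_max isPreconnected_connectedComponentIn
      (mem_comp (F := comp (L ∩ V) e ∩ H) ⟨h3, heH⟩)
      ((comp_sub _ _).trans (inter_subset_inter_left _ ((comp_sub _ _).trans inter_subset_left)))
  rcases exit_comp (hx V hV hVt hxV) hHx hH (OK.eh hX hV hVt hxV hHx hHV) h1 h2 h3 heH h4 with h | h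
  · exact Or.inl (hsub h)
  · exact Or.inr (hsub h)

theorem cut_point_g (hX : Hyp X) {H : Set X} {a b p : X} (hO : OK H) (hH : IrrPt H a b)
    (hp : p ∈ H) (hpa : p ≠ a) (hpb : p ≠ b) :
    ∃ H₁ W : Set X, IrrPt H₁ a p ∧ IrrPt W p b ∧ H = H₁ ∪ W ∧ H₁ ∩ W = {p} ∧
      b ∉ H₁ ∧ a ∉ W := by
  obtain ⟨x, V, hx, hV, hVt, hxV, hHx, hHV⟩ := hO
  exact cut_point (hx V hV hVt hxV) hHx hH (OK.eh hX hV hVt hxV hHx hHV) hp hpa hpb

end

theorem no_three_exits {Z L₁ L₂ L₃ : Set X} (hO : OK Z) (hZ : Ctm Z) (h1 : Ctm L₁) (h2 : Ctm L₂)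
    (h3 : Ctm L₃) (d12 : Disjoint L₁ L₂) (d13 : Disjoint L₁ L₃) (d23 : Disjoint L₂ L₃)
    (m1 : (Z ∩ L₁).Nonempty) (m2 : (Z ∩ L₂).Nonempty) (m3 : (Z ∩ L₃).Nonempty)
    (n1 : ¬ L₁ ⊆ Z) (n2 : ¬ L₂ ⊆ Z) (n3 : ¬ L₃ ⊆ Z) : False := by
  obtain ⟨x, V, hx, hV, hVt, hxV, hHx, hHV⟩ := hO
  obtain ⟨e1, he1, he1'⟩ := m1
  obtain ⟨e2, he2, he2'⟩ := m2
  obtain ⟨e3, he3, he3'⟩ := m3
  obtain ⟨a1, b1, c1, g1⟩ := local_cont hV hxV hHx hHV h1 he1' he1 n1
  obtain ⟨a2, b2, c2, g2⟩ := local_cont hV hxV hHx hHV h2 he2' he2 n2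
  obtain ⟨a3, b3, c3, g3⟩ := local_cont hV hxV hHx hHV h3 he3' he3 n3
  have s1 : comp (L₁ ∩ V) e1 ⊆ L₁ := (comp_sub _ _).trans inter_subset_left
  have s2 : comp (L₂ ∩ V) e2 ⊆ L₂ := (comp_sub _ _).trans inter_subset_left
  have s3 : comp (L₃ ∩ V) e3 ⊆ L₃ := (comp_sub _ _).trans inter_subset_left
  refine (hx V hV hVt hxV) _ ?_ (triod_of_exits hZ a1 a2 a3 (d12.mono s1 s2) (d13.mono s1 s3)
    (d23.mono s2 s3) ⟨e1, he1, c1⟩ ⟨e2, he2, c2⟩ ⟨e3, he3, c3⟩ g1 g2 g3)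
  exact union_subset (union_subset (union_subset hHx b1) b2) b3

theorem nonempty_of_not_meagre_diff {S C : Set X} (hS : ¬ IsMeagre S) (hC : IsMeagre C) :
    (S \ C).Nonempty := by
  by_contra hne
  rw [not_nonempty_iff_eq_empty, sdiff_eq_empty] at hne
  exact hS (hC.mono hne)

theorem meagre_of_meet {x₀ : X} (hx₀ : Reg x₀) {V₁ V₂ : Set X} (hV₁ : IsClosed V₁)
    (hV₂ : IsClosed V₂) (t1 : ¬ Thick V₁) (t2 : ¬ Thick V₂) (hxV : x₀ ∈ V₁) :
    IsMeagre {y : X | y ∈ V₂ ∧ (comp V₁ x₀ ∩ comp V₂ y).Nonempty} := by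
  by_contra hm
  have hZ : Ctm (comp V₁ x₀) := comp_ctm hV₁ hxV
  have hO : OK (comp V₁ x₀) := ok_of_reg hx₀ hZ (mem_comp hxV) (thin_mono t1 (comp_sub _ _))
  have m0 : IsMeagre (comp V₁ x₀) := (comp_thin_nowhereDense hV₁ t1 hxV).isMeagre
  obtain ⟨y1, ⟨hy1V, hy1⟩, hy1'⟩ := nonempty_of_not_meagre_diff hm m0
  have m1 : IsMeagre (comp V₂ y1) := (comp_thin_nowhereDense hV₂ t2 hy1V).isMeagre
  obtain ⟨y2, ⟨hy2V, hy2⟩, hy2'⟩ := nonempty_of_not_meagre_diff hm (m0.union m1)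
  have m2 : IsMeagre (comp V₂ y2) := (comp_thin_nowhereDense hV₂ t2 hy2V).isMeagre
  obtain ⟨y3, ⟨hy3V, hy3⟩, hy3'⟩ := nonempty_of_not_meagre_diff hm ((m0.union m1).union m2)
  exact no_three_exits hO hZ (comp_ctm hV₂ hy1V) (comp_ctm hV₂ hy2V) (comp_ctm hV₂ hy3V)
    (comp_disj (fun h => hy2' (Or.inr h))) (comp_disj (fun h => hy3' (Or.inl (Or.inr h))))
    (comp_disj (fun h => hy3' (Or.inr h))) hy1 hy2 hy3
    (fun h => hy1' (h (mem_comp hy1V))) (fun h => hy2' (Or.inl (h (mem_comp hy2V))))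
    (fun h => hy3' (Or.inl (Or.inl (h (mem_comp hy3V)))))

theorem meagre_pair (hX : Hyp X) {V₁ V₂ : Set X} (hV₁ : IsClosed V₁)
    (hV₂ : IsClosed V₂) (t1 : ¬ Thick V₁) (t2 : ¬ Thick V₂) :
    IsMeagre {x : X | Reg x ∧ x ∈ V₁ ∧ x ∈ V₂ ∧ Thick (comp V₁ x ∪ comp V₂ x)} := by
  rcases eq_empty_or_nonempty {x : X | Reg x ∧ x ∈ V₁ ∧ x ∈ V₂ ∧ Thick (comp V₁ x ∪ comp V₂ x)}
    with h | ⟨x₀, hx₀, hx1, hx2, hxt⟩
  · rw [h]; exact IsMeagre.empty
  refine (((meagre_of_meet hx₀ hV₁ hV₂ t1 t2 hx1).union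
    (meagre_of_meet hx₀ hV₂ hV₁ t2 t1 hx2)).union
    ((meagre_of_meet hx₀ hV₁ hV₁ t1 t1 hx1).union (meagre_of_meet hx₀ hV₂ hV₂ t2 t2 hx2))).mono ?_
  rintro y ⟨hy, hy1, hy2, hyt⟩
  obtain ⟨z, hz, hz'⟩ := thick_meet hX ((comp_closed hV₁ x₀).union (comp_closed hV₂ x₀))
    ((comp_closed hV₁ y).union (comp_closed hV₂ y)) hxt hyt
  rcases hz with hz | hz <;> rcases hz' with hz' | hz'
  · exact Or.inr (Or.inl ⟨hy1, z, hz, hz'⟩)
  · exact Or.inl (Or.inl ⟨hy2, z, hz, hz'⟩)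
  · exact Or.inl (Or.inr ⟨hy1, z, hz, hz'⟩)
  · exact Or.inr (Or.inr ⟨hy2, z, hz, hz'⟩)

theorem nonGood_meagre [SecondCountableTopology X] (hX : Hyp X) :
    IsMeagre {x : X | ¬ Good x} := by
  obtain ⟨ℬ, hℬc, hℬcl, hℬ⟩ := exists_fam X
  have h1 : IsMeagre (⋃ V₁ ∈ {D ∈ ℬ | ¬ Thick D}, ⋃ V₂ ∈ {D ∈ ℬ | ¬ Thick D},
      {x : X | Reg x ∧ x ∈ V₁ ∧ x ∈ V₂ ∧ Thick (comp V₁ x ∪ comp V₂ x)}) := by
    apply isMeagre_biUnion (hℬc.mono (sep_subset _ _))
    intro V₁ h1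
    apply isMeagre_biUnion (hℬc.mono (sep_subset _ _))
    intro V₂ h2
    exact meagre_pair hX (hℬcl _ h1.1) (hℬcl _ h2.1) h1.2 h2.2
  refine ((nonReg_meagre hX).union h1).mono ?_
  intro x hx
  by_cases hr : Reg x
  · right
    simp only [mem_setOf_eq, Good, hr, true_and, not_forall] at hx
    obtain ⟨A, B, hA, hB, hxA, hxB, tA, tB, hT⟩ := hx
    obtain ⟨V₁, hV₁, hAV, t1⟩ := thin_fam hℬ hA.1 tA
    obtain ⟨V₂, hV₂, hBV, t2⟩ := thin_fam hℬ hB.1 tB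
    simp only [mem_iUnion]
    refine ⟨V₁, ⟨hV₁, t1⟩, V₂, ⟨hV₂, t2⟩, hr, interior_subset (hAV hxA),
      interior_subset (hBV hxB), (not_not.1 hT).mono ?_⟩
    exact union_subset_union (comp_max hA.pre hxA (hAV.trans interior_subset))
      (comp_max hB.pre hxB (hBV.trans interior_subset))
  · exact Or.inl hr

end Pool.Agent.Helper52Triod
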