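import Mathlib
import Pool.Agent.Helper52_Triod.Global1

/-!
Arcs through regular points.
-/

set_option autoImplicit false

open Set Topology

namespace Pool.Agent.Helper52Triod

variable {X : Type*} [TopologicalSpace X] [T2Space X] [CompactSpace X]

omit [CompactSpace X] in
theorem exists_near {R L : Set X} (hR : Ctm R) (hL : IsClosed L) {w x : X} (hw : w ∈ R)
    (hwL : w ∉ L) (hx : x ∈ R) (hxw : x ≠ w) : ∃ r ∈ R, r ∉ L ∧ r ≠ w := by
  by_contra hcon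
  push Not at hcon
  have hd : ∀ r ∈ R, r ∈ L → r ∈ ({w} : Set X) → False := by
    intro r _ h1 h2
    rw [mem_singleton_iff] at h2
    exact hwL (h2 ▸ h1)
  have hs : R ⊆ L ∪ {w} := by
    intro r hr
    by_cases h : r ∈ L
    · exact Or.inl h
    · exact Or.inr (hcon r hr h)
  rcases pre_split hR.pre hL isClosed_singleton hs hd with h | h
  · exact hwL (h hw)
  · exact hxw (h hx)

variable [SecondCountableTopology X] [ConnectedSpace X] [Nontrivial X]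

theorem exists_arc (hX : Hyp X) {x : X} (hx : Reg x) :
    ∃ (w z : X) (H : Set X), IrrPt H w z ∧ x ∈ H ∧ x ≠ w ∧ x ≠ z ∧ ¬ Thick H := by
  obtain ⟨V, hV, hxV, hVt⟩ := thin_nhd isClosed_singleton (singleton_thin hX x)
  have hxV' : x ∈ V := interior_subset (hxV rfl)
  have hu : Big (univ : Set X) := ⟨⟨isClosed_univ, isConnected_univ⟩, by
    rw [interior_univ]; exact univ_nonempty⟩
  have hb := bump (L := univ) hu.1 hV (mem_univ x) hxV'
    (fun h => hVt (hu.thick.mono (h.trans interior_subset)))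
  obtain ⟨z, hz, hz'⟩ := not_subset.1 hb
  rw [univ_inter] at hz
  have hxz : x ≠ z := by rintro rfl; exact hz' (hxV rfl)
  obtain ⟨H1, hH1V, hH1⟩ := exists_irrPt (comp_ctm hV hxV') (mem_comp hxV') hz
  have t1 : ¬ Thick H1 := thin_mono hVt (hH1V.trans (comp_sub _ _))
  have o1 : OK H1 := ok_of_reg hx hH1.1 hH1.2.1 t1
  have hxH1 : x ∈ H1 := hH1.2.1
  have hzH1 : z ∈ H1 := hH1.2.2.1
  obtain ⟨r, hr, hrx, hrz⟩ := exists_near hH1.1 (isClosed_singleton (x := x)) hzH1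
    (fun h => hxz (by rw [mem_singleton_iff] at h; exact h.symm)) hxH1 hxz
  rw [mem_singleton_iff] at hrx
  obtain ⟨L0, hL0, hxL0, hrL0⟩ := nwc_big hX (Ne.symm hrx)
  obtain ⟨V2, hV2, hHV2, hV2t⟩ := thin_nhd hH1.1.1 t1
  have hL0n : ¬ L0 ⊆ H1 := fun h => t1 (hL0.thick.mono h)
  have hrE : r ∉ comp (L0 ∩ H1) x := fun h => hrL0 (comp_sub _ _ h).1
  have hzE : z ∉ comp (L0 ∩ H1) x := by
    intro h
    exact hrE (hH1.2.2.2 _ ((comp_sub _ _).trans inter_subset_right)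
      (comp_ctm (hL0.1.1.inter hH1.1.1) ⟨hxL0, hxH1⟩)
      (mem_comp (F := L0 ∩ H1) ⟨hxL0, hxH1⟩) h hr)
  obtain ⟨N, hN, hEN, hNU⟩ := exists_nhd (E := comp (L0 ∩ H1) x)
    (U := ({r, z} : Set X)ᶜ ∩ interior V2) (comp_closed (hL0.1.1.inter hH1.1.1) x)
    ((Set.toFinite _).isClosed.isOpen_compl.inter isOpen_interior) (by
      intro t ht
      refine ⟨?_, hHV2 (comp_sub _ _ ht).2⟩
      rintro (h | h)
      · exact hrE (h ▸ ht)
      · rw [mem_singleton_iff] at h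
        exact hzE (h ▸ ht))
  have hxN : x ∈ N := interior_subset (hEN (mem_comp (F := L0 ∩ H1) ⟨hxL0, hxH1⟩))
  obtain ⟨w, hwL, hwH1⟩ := not_subset.1 (exit_small hL0.1 hN hxL0 hxH1 hL0n hEN)
  set L' := comp (L0 ∩ N) x with hL'
  have hL'c : Ctm L' := comp_ctm (hL0.1.1.inter hN) ⟨hxL0, hxN⟩
  have hxL' : x ∈ L' := mem_comp (F := L0 ∩ N) ⟨hxL0, hxN⟩
  have hrL' : r ∉ L' := fun h => (hNU (comp_sub _ _ h).2).1 (Or.inl rfl)
  have hzL' : z ∉ L' := fun h => (hNU (comp_sub _ _ h).2).1 (Or.inr rfl)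
  have hL'V2 : L' ⊆ V2 := fun t ht => interior_subset (hNU (comp_sub _ _ ht).2).2
  have hH1V2 : H1 ⊆ V2 := hHV2.trans interior_subset
  obtain ⟨H, hHs, hH⟩ := exists_irrPt (hL'c.union hH1.1 ⟨x, hxL', hxH1⟩) (Or.inl hwL) (Or.inr hzH1)
  have hHt : ¬ Thick H := thin_mono hV2t (hHs.trans (union_subset hL'V2 hH1V2))
  have hxw : x ≠ w := by rintro rfl; exact hwH1 hxH1
  refine ⟨w, z, H, hH, ?_, hxw, hxz, hHt⟩
  by_contra hxH
  obtain ⟨A, B, hA, hB, hAB, hABi, hzA, hxB⟩ := cut_point_g hX o1 hH1 hr hrx hrz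
  have hAH1 : A ⊆ H1 := by rw [hAB]; exact subset_union_left
  have hBH1 : B ⊆ H1 := by rw [hAB]; exact subset_union_right
  have hrA : r ∈ A := hA.2.2.1
  have hrB : r ∈ B := hB.2.1
  have hwH : w ∈ H := hH.2.1
  have hzH : z ∈ H := hH.2.2.1
  have hL'B : ∀ y ∈ L', y ∉ B := by
    intro y hy hyB
    rcases exit_comp_g hX (o1.mono hBH1) hB hL'c hy hyB (fun h => hwH1 (hBH1 (h hwL))) with h | h
    · exact hrL' (comp_sub _ _ h).1
    · exact hzL' (comp_sub _ _ h).1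
  have hABr : ∀ y, y ∈ A → y ∈ B → y = r := by
    intro y h1 h2
    have : y ∈ A ∩ B := ⟨h1, h2⟩
    rw [hABi] at this
    exact this
  have hHcov : H ⊆ B ∪ (L' ∪ A) := by
    intro y hy
    rcases hHs hy with h | h
    · exact Or.inr (Or.inl h)
    · rw [hAB] at h
      rcases h with h | h
      · exact Or.inr (Or.inr h)
      · exact Or.inl h
  have hinter : ∀ y ∈ H, y ∈ B → y ∈ (L' ∪ A) → y = r := by
    rintro y _ h1 (h2 | h2)
    · exact absurd h1 (hL'B y h2)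
    · exact hABr y h2 h1
  have hLAc : IsClosed (L' ∪ A) := hL'c.1.union hA.1.1
  have hrH : r ∈ H := by
    by_contra hrH
    rcases pre_split hH.1.pre hB.1.1 hLAc hHcov (fun y hy h1 h2 => hrH (hinter y hy h1 h2 ▸ hy))
      with h | h
    · exact hwH1 (hBH1 (h hwH))
    · rcases h hzH with h | h
      · exact hzL' h
      · exact hzA h
  have hHB : Ctm (H ∩ B) := cut_conn hH.1 hB.1.1 hLAc hHcov hrH hrB (Or.inr hrA) hinter
  have hBH : B ⊆ H :=
    (hB.2.2.2 _ inter_subset_right hHB ⟨hrH, hrB⟩ ⟨hzH, hB.2.2.1⟩).trans inter_subset_left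
  have hHA : H ∩ A ⊆ comp (H ∩ A) r := by
    rintro y ⟨hyH, hyA⟩
    rcases exit_comp_g hX (o1.mono hAH1) hA hH.1 hyH hyA (fun h => hwH1 (hAH1 (h hwH))) with h | h
    · exact absurd (comp_sub _ _ h).1 hxH
    · rw [← comp_eq_of_mem h]
      exact mem_comp (F := H ∩ A) ⟨hyH, hyA⟩
  have hHAe : H ∩ A = comp (H ∩ A) r := hHA.antisymm (comp_sub _ _)
  have hZc : Ctm (H ∩ A) := by
    rw [hHAe]
    exact comp_ctm (hH.1.1.inter hA.1.1) ⟨hrH, hrA⟩
  have hT : Ctm (A ∪ H) := hA.1.union hH.1 ⟨r, hrA, hrH⟩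
  have hTt : ¬ Thick (A ∪ H) := thin_mono hV2t
    (union_subset (hAH1.trans hH1V2) (hHs.trans (union_subset hL'V2 hH1V2)))
  have hTO : OK (A ∪ H) := ok_of_reg hx hT (Or.inl hA.2.1) hTt
  refine hTO.noTriod _ subset_rfl (triod_mk (Z := H ∩ A) (A := A \ H) (B := H \ H1) (C := B \ {r})
    (A' := A) (B' := L' ∩ H) (C' := B) hT hZc (fun y hy => Or.inl hy.2)
    ⟨x, hA.2.1, hxH⟩ ⟨w, hwH, hwH1⟩ ⟨z, hB.2.2.1, Ne.symm hrz⟩ ?_ hA.1.1 (hL'c.1.inter hH.1.1)
    hB.1.1 sdiff_subset ?_ sdiff_subset ?_ ?_ ?_ ?_ ?_ ?_)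
  · ext y
    constructor
    · rintro ⟨hy, hy'⟩
      by_cases hyA : y ∈ A
      · exact Or.inl (Or.inl ⟨hyA, fun h => hy' ⟨h, hyA⟩⟩)
      · have hyH : y ∈ H := hy.resolve_left hyA
        by_cases hyB : y ∈ B
        · exact Or.inr ⟨hyB, fun h => hyA (by rw [mem_singleton_iff] at h; rwa [h])⟩
        · refine Or.inl (Or.inr ⟨hyH, fun h => ?_⟩)
          rw [hAB] at h
          exact h.elim hyA hyB
    · rintro ((hy | hy) | hy)
      · exact ⟨Or.inl hy.1, fun h => hy.2 h.1⟩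
      · exact ⟨Or.inr hy.1, fun h => hy.2 (hAH1 h.2)⟩
      · exact ⟨Or.inr (hBH hy.1), fun h => hy.2 (hABr y h.2 hy.1)⟩
  · rintro y ⟨hyH, hyH1⟩
    exact ⟨(hHs hyH).resolve_right hyH1, hyH⟩
  · intro y hyA hy
    exact hy.2 (hAH1 hyA)
  · intro y hyA hy
    exact hy.2 (hABr y hyA hy.1)
  · intro y hyL hy
    exact hy.2 hyL.2
  · intro y hyL hy
    exact hL'B y hyL.1 hy.1
  · intro y hyB hy
    exact hy.2 (hABr y hy.1 hyB ▸ hrH)
  · intro y hyB hy
    exact hy.2 (hBH1 hyB)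

/-- Two arms at `x`. -/
structure Arms (x a b : X) (Ha Hb : Set X) : Prop where
  ia : IrrPt Ha x a
  ib : IrrPt Hb x b
  inter : Ha ∩ Hb = {x}
  iab : IrrPt (Ha ∪ Hb) a b
  thin : ¬ Thick (Ha ∪ Hb)
  ax : a ≠ x
  bx : b ≠ x

omit [T2Space X] [CompactSpace X] [SecondCountableTopology X] [ConnectedSpace X]
  [Nontrivial X] in
theorem Arms.symm {x a b : X} {Ha Hb : Set X} (h : Arms x a b Ha Hb) : Arms x b a Hb Ha where
  ia := h.ib
  ib := h.ia
  inter := by rw [inter_comm]; exact h.inter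
  iab := by rw [union_comm]; exact h.iab.symm
  thin := by rw [union_comm]; exact h.thin
  ax := h.bx
  bx := h.ax

theorem exists_arms (hX : Hyp X) {x : X} (hx : Reg x) :
    ∃ (a b : X) (Ha Hb : Set X), Arms x a b Ha Hb := by
  obtain ⟨w, z, H, hH, hxH, hxw, hxz, hHt⟩ := exists_arc hX hx
  have hO : OK H := ok_of_reg hx hH.1 hxH hHt
  obtain ⟨A, B, hA, hB, hAB, hABi, hzA, hwB⟩ := cut_point_g hX hO hH hxH hxw hxz
  refine ⟨w, z, A, B, hA.symm, hB, hABi, ?_, ?_, Ne.symm hxw, Ne.symm hxz⟩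
  · rw [← hAB]; exact hH
  · rw [← hAB]; exact hHt

end Pool.Agent.Helper52Triod
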