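import Mathlib
import Pool.Agent.Helper52_Triod.Global2

/-!
The two sides of a good point, and the final Baire argument.
-/

set_option autoImplicit false

open Set Topology

namespace Pool.Agent.Helper52Triod

/-- Points reachable from `x` by thin irreducible continua meeting `Ha` only in `x`. -/
def pts {X : Type*} [TopologicalSpace X] (x : X) (Ha : Set X) : Set X :=
  {q | ∃ Q : Set X, IrrPt Q x q ∧ ¬ Thick Q ∧ ∀ y ∈ Q, y ∈ Ha → y = x}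

variable {X : Type*} [TopologicalSpace X] [T2Space X] [CompactSpace X]

theorem irr_sub_pts {x q : X} {Ha Q : Set X} (hQ : IrrPt Q x q) (ht : ¬ Thick Q)
    (hi : ∀ y ∈ Q, y ∈ Ha → y = x) : Q ⊆ pts x Ha := by
  intro q' hq'
  obtain ⟨Q', hQ'Q, hQ'⟩ := exists_irrPt hQ.1 hQ.2.1 hq'
  exact ⟨Q', hQ', thin_mono ht hQ'Q, fun y hy => hi y (hQ'Q hy)⟩

theorem pts_pre (x : X) (Ha : Set X) : IsPreconnected (pts x Ha) := by
  apply isPreconnected_of_forall x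
  intro q hq
  obtain ⟨Q, hQ, tQ, iQ⟩ := hq
  exact ⟨Q, irr_sub_pts hQ tQ iQ, hQ.2.1, hQ.2.2.1, hQ.1.pre⟩

omit [T2Space X] [CompactSpace X] in
theorem Arms.ib_inter {x a b : X} {Ha Hb : Set X} (h : Arms x a b Ha Hb) :
    ∀ y ∈ Hb, y ∈ Ha → y = x := by
  intro y hb ha
  have : y ∈ Ha ∩ Hb := ⟨ha, hb⟩
  rw [h.inter] at this
  exact this

theorem Arms.ib_sub {x a b : X} {Ha Hb : Set X} (h : Arms x a b Ha Hb) : Hb ⊆ pts x Ha :=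
  irr_sub_pts h.ib (thin_mono h.thin subset_union_right) h.ib_inter

theorem Arms.ctm {x a b : X} {Ha Hb : Set X} (h : Arms x a b Ha Hb) :
    Ctm (closure (pts x Ha)) :=
  ⟨isClosed_closure, ⟨x, subset_closure (h.ib_sub h.ib.2.1)⟩, (pts_pre x Ha).closure⟩

theorem Arms.mem {x a b : X} {Ha Hb : Set X} (h : Arms x a b Ha Hb) :
    x ∈ closure (pts x Ha) := subset_closure (h.ib_sub h.ib.2.1)

theorem Arms.ok {x a b : X} {Ha Hb : Set X} (h : Arms x a b Ha Hb) (hx : Reg x) :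
    OK (Ha ∪ Hb) := ok_of_reg hx h.iab.1 (Or.inl h.ia.2.1) h.thin

omit [T2Space X] [CompactSpace X] in
theorem irr_glue {A B : Set X} {x r₁ r₂ : X} (hA : IrrPt A x r₁) (hB : IrrPt B x r₂)
    (hAB : ∀ y ∈ A, y ∈ B → y = x) : IrrPt (A ∪ B) r₁ r₂ := by
  have hxA := hA.2.1
  have hxB := hB.2.1
  refine ⟨hA.1.union hB.1 ⟨x, hxA, hxB⟩, Or.inl hA.2.2.1, Or.inr hB.2.2.1, ?_⟩
  intro K' hK' hK hr1 hr2
  have hxK : x ∈ K' := by
    by_contra hxK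
    rcases pre_split hK.pre hA.1.1 hB.1.1 hK' (fun y hy h1 h2 => hxK (hAB y h1 h2 ▸ hy)) with h | h
    · exact hxK (hAB _ (h hr2) hB.2.2.1 ▸ hr2)
    · exact hxK (hAB _ hA.2.2.1 (h hr1) ▸ hr1)
  have h1 : Ctm (K' ∩ A) := cut_conn hK hA.1.1 hB.1.1 hK' hxK hxA hxB (fun y _ => hAB y)
  have h2 : Ctm (K' ∩ B) := cut_conn hK hB.1.1 hA.1.1 (by rwa [union_comm]) hxK hxB hxA
    (fun y _ hy1 hy2 => hAB y hy2 hy1)
  exact union_subset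
    ((hA.2.2.2 _ inter_subset_right h1 ⟨hxK, hxA⟩ ⟨hr1, hA.2.2.1⟩).trans inter_subset_left)
    ((hB.2.2.2 _ inter_subset_right h2 ⟨hxK, hxB⟩ ⟨hr2, hB.2.2.1⟩).trans inter_subset_left)

omit [T2Space X] [CompactSpace X] in
theorem sub_irr {Q₁ Q₂ C : Set X} {x r : X} (h1 : IrrPt Q₁ x r) (h2 : IsClosed Q₂) (hr : r ∈ Q₂)
    (hi : ∀ y ∈ Q₁, y ∈ Q₂ → y = r) (hC : IrrPt C x r) (hCQ : C ⊆ Q₁ ∪ Q₂) : C = Q₁ := by
  have h : Ctm (C ∩ Q₁) := cut_conn hC.1 h1.1.1 h2 hCQ hC.2.2.1 h1.2.2.1 hr (fun y _ => hi y)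
  have h3 : C ⊆ Q₁ := (hC.2.2.2 _ inter_subset_left h ⟨hC.2.1, h1.2.1⟩
    ⟨hC.2.2.1, h1.2.2.1⟩).trans inter_subset_right
  exact h3.antisymm (h1.2.2.2 _ h3 hC.1 hC.2.1 hC.2.2.1)

omit [T2Space X] [CompactSpace X] in
theorem mem_of_inter {A B : Set X} {r : X} (h : A ∩ B = {r}) : r ∈ A ∧ r ∈ B ∧
    ∀ y ∈ A, y ∈ B → y = r := by
  have h1 : r ∈ A ∩ B := by rw [h]; rfl
  refine ⟨h1.1, h1.2, fun y h2 h3 => ?_⟩
  have : y ∈ A ∩ B := ⟨h2, h3⟩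
  rw [h] at this
  exact this

variable [SecondCountableTopology X] [ConnectedSpace X] [Nontrivial X]

theorem lemA (hX : Hyp X) {x a b q : X} {Ha Hb Q : Set X} (hx : Reg x) (h : Arms x a b Ha Hb)
    (hQ : Ctm Q) (hxQ : x ∈ Q) (hqQ : q ∈ Q) (hi : ∀ y ∈ Q, y ∈ Ha → y = x) (hq : q ∉ Hb) :
    Hb ⊆ Q := by
  have hn : ¬ Q ⊆ Ha ∪ Hb := by
    intro hs
    rcases hs hqQ with h' | h'
    · exact hq (hi q hqQ h' ▸ h.ib.2.1)
    · exact hq h'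
  rcases exit_comp_g hX (h.ok hx) h.iab hQ hxQ (Or.inl h.ia.2.1) hn with h' | h'
  · exact absurd (hi a (comp_sub _ _ h').1 h.ia.2.2.1) h.ax
  · have hE : Ctm (comp (Q ∩ (Ha ∪ Hb)) x) :=
      comp_ctm (hQ.1.inter h.iab.1.1) ⟨hxQ, Or.inl h.ia.2.1⟩
    have hEHb : comp (Q ∩ (Ha ∪ Hb)) x ⊆ Hb := by
      intro y hy
      have hy' := comp_sub _ _ hy
      rcases hy'.2 with h2 | h2
      · rw [hi y hy'.1 h2]; exact h.ib.2.1
      · exact h2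
    exact (h.ib.2.2.2 _ hEHb hE (mem_comp (F := Q ∩ (Ha ∪ Hb)) ⟨hxQ, Or.inl h.ia.2.1⟩)
      h').trans ((comp_sub _ _).trans inter_subset_left)

theorem nc0 (hX : Hyp X) {x w : X} {R S : Set X} (hx : Good x) (hR : IrrPt R x w)
    (hS : IrrPt S x w) (tR : ¬ Thick R) (tS : ¬ Thick S) (hxw : x ≠ w)
    (hRS : ∀ y ∈ R, y ∈ S → y = x ∨ y = w) : False := by
  obtain ⟨L, hL, hxL, hwL⟩ := nwc_big hX hxw
  obtain ⟨r₁, hr₁, hr₁L, hr₁w⟩ := exists_near hR.1 hL.1.1 hR.2.2.1 hwL hR.2.1 hxw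
  obtain ⟨r₂, hr₂, hr₂L, hr₂w⟩ := exists_near hS.1 hL.1.1 hS.2.2.1 hwL hS.2.1 hxw
  have hr₁x : r₁ ≠ x := by rintro rfl; exact hr₁L hxL
  have hr₂x : r₂ ≠ x := by rintro rfl; exact hr₂L hxL
  obtain ⟨A₁, W₁, hA₁, hW₁, hRe, -, hwA₁, -⟩ :=
    cut_point_g hX (ok_of_reg hx.1 hR.1 hR.2.1 tR) hR hr₁ hr₁x hr₁w
  obtain ⟨A₂, W₂, hA₂, hW₂, hSe, -, hwA₂, -⟩ :=
    cut_point_g hX (ok_of_reg hx.1 hS.1 hS.2.1 tS) hS hr₂ hr₂x hr₂w
  have hA₁R : A₁ ⊆ R := by rw [hRe]; exact subset_union_left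
  have hA₂S : A₂ ⊆ S := by rw [hSe]; exact subset_union_left
  have hI : IrrPt (A₁ ∪ A₂) r₁ r₂ := irr_glue hA₁ hA₂ (by
    intro y h1 h2
    rcases hRS y (hA₁R h1) (hA₂S h2) with h | h
    · exact h
    · exact absurd (h ▸ h1) hwA₁)
  have hIt : ¬ Thick (A₁ ∪ A₂) := thin_mono (hx.2 R S hR.1 hS.1 hR.2.1 hS.2.1 tR tS)
    (union_subset_union hA₁R hA₂S)
  rcases exit_comp_g hX (ok_of_reg hx.1 hI.1 (Or.inl hA₁.2.1) hIt) hI hL.1 hxL (Or.inl hA₁.2.1)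
    (fun h => hIt (hL.thick.mono h)) with h | h
  · exact hr₁L (comp_sub _ _ h).1
  · exact hr₂L (comp_sub _ _ h).1

theorem nc (hX : Hyp X) {x a b q : X} {Ha Hb : Set X} (hx : Good x) (h : Arms x a b Ha Hb)
    (h1 : q ∈ pts x Ha) (h2 : q ∈ pts x Hb) : q = x := by
  obtain ⟨Q, hQ, tQ, iQ⟩ := h1
  obtain ⟨Q', hQ', tQ', iQ'⟩ := h2
  by_contra hqx
  have hqHb : q ∉ Hb := fun h' => hqx (iQ' q hQ'.2.2.1 h')
  have hHbQ : Hb ⊆ Q := lemA hX hx.1 h hQ.1 hQ.2.1 hQ.2.2.1 iQ hqHb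
  have hbQ : b ∈ Q := hHbQ h.ib.2.2.1
  have hbQ' : b ∉ Q' := fun h' => h.bx (iQ' b h' h.ib.2.2.1)
  have hbq : b ≠ q := by rintro rfl; exact hqHb h.ib.2.2.1
  have oQ : OK Q := ok_of_reg hx.1 hQ.1 hQ.2.1 tQ
  have oQ' : OK Q' := ok_of_reg hx.1 hQ'.1 hQ'.2.1 tQ'
  obtain ⟨Q₁, Q₂, hQ₁, hQ₂, hQe, hQi, -, hxQ₂⟩ := cut_point_g hX oQ hQ hbQ h.bx hbq
  obtain ⟨-, hb2, hQi'⟩ := mem_of_inter hQi
  have hHbQ₁ : Hb = Q₁ := sub_irr hQ₁ hQ₂.1.1 hb2 hQi' h.ib (hQe ▸ hHbQ)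
  have hxQQ' : x ∈ Q ∩ Q' := ⟨hQ.2.1, hQ'.2.1⟩
  have hE : ∀ y ∈ comp (Q ∩ Q') x, y = x := by
    have hs : comp (Q ∩ Q') x ⊆ Q₁ ∪ Q₂ := by
      rw [← hQe]; exact (comp_sub _ _).trans inter_subset_left
    have hd : ∀ y ∈ comp (Q ∩ Q') x, y ∈ Q₁ → y ∈ Q₂ → False := by
      intro y hy hy1 hy2
      have := hQi' y hy1 hy2
      exact hbQ' (this ▸ (comp_sub _ _ hy).2)
    rcases pre_split isPreconnected_connectedComponentIn hQ₁.1.1 hQ₂.1.1 hs hd with h' | h'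
    · intro y hy
      exact iQ' y (comp_sub _ _ hy).2 (by rw [hHbQ₁]; exact h' hy)
    · exact absurd (h' (mem_comp hxQQ')) hxQ₂
  have hqQQ' : q ∈ Q ∩ Q' := ⟨hQ.2.2.1, hQ'.2.2.1⟩
  set Z := comp (Q ∩ Q') q with hZ
  have hZc : Ctm Z := comp_ctm (hQ.1.1.inter hQ'.1.1) hqQQ'
  have hxZ : x ∉ Z := by
    intro hxZ
    have h3 := comp_eq_of_mem hxZ
    exact hqx (hE q (h3 ▸ mem_comp hqQQ'))
  have hcov : ∀ e ∈ Q ∩ Q', e = x ∨ e ∈ Z := by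
    intro e he
    rcases exit_comp_g hX oQ' hQ' hQ.1 he.1 he.2 (fun h' => hbQ' (h' hbQ)) with h' | h'
    · left
      have h3 := comp_eq_of_mem h'
      exact hE e (h3 ▸ mem_comp he)
    · right
      have h3 := comp_eq_of_mem h'
      rw [hZ, ← h3]
      exact mem_comp he
  obtain ⟨R, hRQ, hR⟩ := exists_irr hQ.1 hZc.1 hQ.2.1 ⟨q, hQ.2.2.1, mem_comp hqQQ'⟩
  obtain ⟨w, hwR, hwZ⟩ := hR.2.2.1
  have hRw : IrrPt R x w :=
    ⟨hR.1, hR.2.1, hwR, fun K' h1 h2 h3 h4 => hR.2.2.2 K' h1 h2 h3 ⟨w, h4, hwZ⟩⟩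
  have hxw : x ≠ w := by rintro rfl; exact hxZ hwZ
  have hsing : ∀ y ∈ R, y ∈ Z → y = w := by
    intro y hyR hyZ
    by_contra hyw
    have hyx : y ≠ x := by rintro rfl; exact hxZ hyZ
    obtain ⟨A, W, hA, hW, hRe, -, hwA, -⟩ := cut_point_g hX (oQ.mono hRQ) hRw hyR hyx hyw
    exact hwA (hR.2.2.2 A (by rw [hRe]; exact subset_union_left) hA.1 hA.2.1
      ⟨y, hA.2.2.1, hyZ⟩ hwR)
  have hwQ' : w ∈ Q' := (comp_sub _ _ hwZ).2
  obtain ⟨S, hSQ', hS⟩ := exists_irrPt hQ'.1 hQ'.2.1 hwQ'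
  refine nc0 hX hx hRw hS (thin_mono tQ hRQ) (thin_mono tQ' hSQ') hxw ?_
  intro y hyR hyS
  rcases hcov y ⟨hRQ hyR, hSQ' hyS⟩ with h' | h'
  · exact Or.inl h'
  · exact Or.inr (hsing y hyR h')

theorem dich (hX : Hyp X) {x a b : X} {Ha Hb L : Set X} (hx : Good x) (h : Arms x a b Ha Hb)
    (hL : Ctm L) (hLt : Thick L) (hxL : x ∈ L) :
    closure (pts x Ha) ⊆ L ∨ closure (pts x Hb) ⊆ L := by
  by_contra hcon
  push Not at hcon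
  obtain ⟨h1, h2⟩ := hcon
  have h1' : ¬ pts x Ha ⊆ L := fun h' => h1 (closure_minimal h' hL.1)
  have h2' : ¬ pts x Hb ⊆ L := fun h' => h2 (closure_minimal h' hL.1)
  obtain ⟨q, ⟨Q, hQ, tQ, iQ⟩, hqL⟩ := not_subset.1 h1'
  obtain ⟨q', ⟨Q', hQ', tQ', iQ'⟩, hqL'⟩ := not_subset.1 h2'
  have hI : IrrPt (Q ∪ Q') q q' := irr_glue hQ hQ' (fun y hy hy' =>
    nc hX hx h (irr_sub_pts hQ tQ iQ hy) (irr_sub_pts hQ' tQ' iQ' hy'))
  have hIt : ¬ Thick (Q ∪ Q') := hx.2 Q Q' hQ.1 hQ'.1 hQ.2.1 hQ'.2.1 tQ tQ'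
  rcases exit_comp_g hX (ok_of_reg hx.1 hI.1 (Or.inl hQ.2.1) hIt) hI hL hxL (Or.inl hQ.2.1)
    (fun h => hIt (hLt.mono h)) with h | h
  · exact hqL (comp_sub _ _ h).1
  · exact hqL' (comp_sub _ _ h).1

theorem lemB (hX : Hyp X) {x a b z : X} {Ha Hb Q : Set X} (hx : Reg x) (h : Arms x a b Ha Hb)
    (hQ : IrrPt Q x z) (tQ : ¬ Thick Q) (haQ : a ∉ Q) (hza : z ∉ Ha) (hzb : z ∉ Hb) :
    ∀ y ∈ Q, y ∈ Ha → y = x := by
  by_contra hcon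
  push Not at hcon
  obtain ⟨r, hrQ, hrHa, hrx⟩ := hcon
  have hn : ¬ Q ⊆ Ha ∪ Hb := by
    intro hs
    rcases hs hQ.2.2.1 with h' | h'
    · exact hza h'
    · exact hzb h'
  have oQ : OK Q := ok_of_reg hx hQ.1 hQ.2.1 tQ
  have oH : OK (Ha ∪ Hb) := h.ok hx
  obtain ⟨hxa, hxb, hi⟩ := mem_of_inter h.inter
  have hb : b ∈ comp (Q ∩ (Ha ∪ Hb)) x :=
    (exit_comp_g hX oH h.iab hQ.1 hQ.2.1 (Or.inl hxa) hn).resolve_left
      (fun h' => haQ (comp_sub _ _ h').1)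
  have hE : Ctm (comp (Q ∩ (Ha ∪ Hb)) x) :=
    comp_ctm (hQ.1.1.inter h.iab.1.1) ⟨hQ.2.1, Or.inl hxa⟩
  have hxE : x ∈ comp (Q ∩ (Ha ∪ Hb)) x := mem_comp (F := Q ∩ (Ha ∪ Hb)) ⟨hQ.2.1, Or.inl hxa⟩
  have hHbQ : Hb ⊆ Q := by
    have h1 : Ctm (comp (Q ∩ (Ha ∪ Hb)) x ∩ Hb) := by
      refine cut_conn (r := x) hE h.ib.1.1 h.ia.1.1 ?_ hxE hxb hxa (fun y _ h1 h2 => hi y h2 h1)
      intro y hy
      exact (comp_sub _ _ hy).2.symm
    exact (h.ib.2.2.2 _ inter_subset_right h1 ⟨hxE, hxb⟩ ⟨hb, h.ib.2.2.1⟩).trans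
      (inter_subset_left.trans ((comp_sub _ _).trans inter_subset_left))
  have hrz : r ≠ z := by rintro rfl; exact hza hrHa
  have hra : r ≠ a := by rintro rfl; exact haQ hrQ
  obtain ⟨Q₁, Q₂, hQ₁, hQ₂, hQe, hQi, -, hxQ₂⟩ := cut_point_g hX oQ hQ hrQ hrx hrz
  obtain ⟨A₁, A₂, hA₁, hA₂, hAe, hAi, -, -⟩ :=
    cut_point_g hX (oH.mono subset_union_left) h.ia hrHa hrx hra
  obtain ⟨hr1, hr2, hQi'⟩ := mem_of_inter hQi
  obtain ⟨hr1', hr2', hAi'⟩ := mem_of_inter hAi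
  have hxr : x ∈ comp (Q ∩ Ha) r :=
    (exit_comp_g hX (oH.mono subset_union_left) h.ia hQ.1 hrQ hrHa
      (fun h' => hza (h' hQ.2.2.1))).resolve_right (fun h' => haQ (comp_sub _ _ h').1)
  have hrr : r ∈ comp (Q ∩ Ha) r := mem_comp (F := Q ∩ Ha) ⟨hrQ, hrHa⟩
  have hA₁Q : A₁ ⊆ Q := by
    have h1 : Ctm (comp (Q ∩ Ha) r ∩ A₁) := by
      refine cut_conn (r := r) (comp_ctm (hQ.1.1.inter h.ia.1.1) ⟨hrQ, hrHa⟩) hA₁.1.1 hA₂.1.1 ?_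
        hrr hr1' hr2' (fun y _ => hAi' y)
      rw [← hAe]
      exact (comp_sub _ _).trans inter_subset_right
    exact (hA₁.2.2.2 _ inter_subset_right h1 ⟨hxr, hA₁.2.1⟩ ⟨hrr, hr1'⟩).trans
      (inter_subset_left.trans ((comp_sub _ _).trans inter_subset_left))
  have hAQ : A₁ = Q₁ := sub_irr hQ₁ hQ₂.1.1 hr2 hQi' hA₁ (hQe ▸ hA₁Q)
  have hrHb : r ∉ Hb := fun h' => hrx (hi r hrHa h')
  rcases pre_split h.ib.1.pre hQ₁.1.1 hQ₂.1.1 (hQe ▸ hHbQ)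
    (fun y hy h1 h2 => hrHb (hQi' y h1 h2 ▸ hy)) with h' | h'
  · have hbA : b ∈ Ha := by
      rw [hAe, hAQ]
      exact Or.inl (h' h.ib.2.2.1)
    exact h.bx (hi b hbA h.ib.2.2.1)
  · exact hxQ₂ (h' hxb)

theorem g1 (hX : Hyp X) {x a b : X} {Ha Hb : Set X} (hx : Good x) (h : Arms x a b Ha Hb) :
    Thick (closure (pts x Ha)) := by
  by_contra ht
  obtain ⟨L, hL, hxL, haL⟩ := nwc_big hX (Ne.symm h.ax)
  have htt : ¬ Thick (closure (pts x Ha) ∪ Ha) := hx.2 _ _ h.ctm h.ia.1 h.mem h.ia.2.1 ht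
    (thin_mono h.thin subset_union_left)
  obtain ⟨V, hV, hsV, hVt⟩ := thin_nhd (h.ctm.1.union h.ia.1.1) htt
  have hxV : x ∈ V := interior_subset (hsV (Or.inl h.mem))
  obtain ⟨z, hz, hzV⟩ := not_subset.1 (bump hL.1 hV hxL hxV
    (fun h' => hVt (hL.thick.mono (h'.trans interior_subset))))
  have hxc : x ∈ comp (L ∩ V) x := mem_comp (F := L ∩ V) ⟨hxL, hxV⟩
  obtain ⟨Q, hQs, hQ⟩ := exists_irrPt (comp_ctm (hL.1.1.inter hV) ⟨hxL, hxV⟩) hxc hz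
  have hQt : ¬ Thick Q := thin_mono hVt (hQs.trans ((comp_sub _ _).trans inter_subset_right))
  have haQ : a ∉ Q := fun h' => haL (comp_sub _ _ (hQs h')).1
  have hzG : z ∉ closure (pts x Ha) := fun h' => hzV (hsV (Or.inl h'))
  have hzHa : z ∉ Ha := fun h' => hzV (hsV (Or.inr h'))
  have hzHb : z ∉ Hb := fun h' => hzG (subset_closure (h.ib_sub h'))
  have hi := lemB hX hx.1 h hQ hQt haQ hzHa hzHb
  exact hzG (subset_closure ⟨Q, hQ, hQt, hi⟩)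

theorem g2 (hX : Hyp X) {x a b y : X} {Ha Hb : Set X} (hx : Good x) (h : Arms x a b Ha Hb)
    (h1 : y ∈ closure (pts x Ha)) (h2 : y ∈ closure (pts x Hb)) : y = x := by
  by_contra hyx
  obtain ⟨L, hL, hxL, hyL⟩ := nwc_big hX (Ne.symm hyx)
  rcases dich hX hx h hL.1 hL.thick hxL with h' | h'
  · exact hyL (h' h1)
  · exact hyL (h' h2)

theorem r1 (hX : Hyp X) {x a b : X} {Ha Hb L : Set X} (hx : Reg x) (h : Arms x a b Ha Hb)
    (hL : Big L) (haL : a ∈ L) (hxL : x ∉ L) : closure (pts x Hb) ⊆ Ha ∪ L := by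
  apply closure_minimal _ (h.ia.1.1.union hL.1.1)
  rintro q ⟨Q, hQ, tQ, iQ⟩
  by_cases hq : q ∈ Ha
  · exact Or.inl hq
  · have hHaQ : Ha ⊆ Q := lemA hX hx h.symm hQ.1 hQ.2.1 hQ.2.2.1 iQ hq
    rcases exit_comp_g hX (ok_of_reg hx hQ.1 hQ.2.1 tQ) hQ hL.1 haL (hHaQ h.ia.2.2.1)
      (fun h => tQ (hL.thick.mono h)) with h' | h'
    · exact absurd (comp_sub _ _ h').1 hxL
    · exact Or.inr (comp_sub _ _ h').1

theorem final_sub (hX : Hyp X) {x a b y a' b' : X} {Ha Hb Ha' Hb' D : Set X} (hx : Good x)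
    (h : Arms x a b Ha Hb) (hy : Good y) (h' : Arms y a' b' Ha' Hb') (haD : a ∉ D)
    (hD : ∀ t ∈ closure (pts x Hb), t ∈ D → t ∈ Ha) (hyD : closure (pts y Ha') ⊆ D) :
    closure (pts x Ha) ⊆ closure (pts y Ha') := by
  have t1 : Thick (closure (pts x Hb)) := g1 hX hx h.symm
  have t2 : Thick (closure (pts y Ha')) := g1 hX hy h'
  obtain ⟨e, he, he'⟩ := thick_meet hX isClosed_closure isClosed_closure t1 t2
  have heHa : e ∈ Ha := hD e he (hyD he')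
  have tHa : ¬ Thick Ha := thin_mono h.thin subset_union_left
  have hxG : x ∈ closure (pts y Ha') := by
    rcases exit_comp_g hX (ok_of_reg hx.1 h.ia.1 h.ia.2.1 tHa) h.ia h'.ctm he' heHa
      (fun hs => tHa (t2.mono hs)) with h3 | h3
    · exact (comp_sub _ _ h3).1
    · exact absurd (hyD (comp_sub _ _ h3).1) haD
  rcases dich hX hx h h'.ctm t2 hxG with h3 | h3
  · exact h3
  · exact absurd (hyD (h3 (subset_closure (h.symm.ib_sub h.ia.2.2.1)))) haD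

theorem final (hX : Hyp X) : False := by
  obtain ⟨ℬ, hℬc, hℬcl, hℬ⟩ := exists_fam X
  let E : Set X → Set X := fun D => {x | Good x ∧ ∃ (a b : X) (Ha Hb : Set X), Arms x a b Ha Hb ∧
    closure (pts x Ha) ⊆ D ∧ a ∉ D ∧ ∀ t ∈ closure (pts x Hb), t ∈ D → t ∈ Ha}
  have hcov : ∀ x, Good x → ∃ D ∈ ℬ, x ∈ E D := by
    intro x hx
    obtain ⟨a, b, Ha, Hb, h⟩ := exists_arms hX hx.1
    obtain ⟨L, hL, haL, hxL⟩ := nwc_big hX h.ax
    have hsub := r1 hX hx.1 h hL haL hxL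
    obtain ⟨D, hD, hGD, hDU⟩ := hℬ (closure (pts x Ha)) (closure (pts x Hb) ∩ L)ᶜ isClosed_closure
      (isClosed_closure.inter hL.1.1).isOpen_compl (by
        intro y hy hy'
        exact hxL (g2 hX hx h hy hy'.1 ▸ hy'.2))
    refine ⟨D, hD, hx, a, b, Ha, Hb, h, hGD.trans interior_subset, ?_, ?_⟩
    · intro haD
      exact hDU haD ⟨subset_closure (h.symm.ib_sub h.ia.2.2.1), haL⟩
    · intro t ht htD
      exact (hsub ht).resolve_right (fun h' => hDU htD ⟨ht, h'⟩)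
  have hnd : ∀ D ∈ ℬ, IsNowhereDense (E D) := by
    intro D _
    by_contra hcon
    have hne : (interior (closure (E D))).Nonempty := nonempty_iff_ne_empty.2 hcon
    obtain ⟨u, hu⟩ := hne
    obtain ⟨x, hxU, hxE⟩ := mem_closure_iff.1 (interior_subset hu) _ isOpen_interior hu
    obtain ⟨hx, a, b, Ha, Hb, h, hGD, haD, hD⟩ := hxE
    have hsub : closure (E D) ⊆ closure (pts x Ha) := by
      apply closure_minimal _ isClosed_closure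
      rintro y ⟨hy, a', b', Ha', Hb', h', hGD', haD', hD'⟩
      exact final_sub hX hy h' hx h haD' hD' hGD h'.mem
    obtain ⟨L, hL, hbL, hxL⟩ := nwc_big hX h.bx
    have hr := r1 hX hx.1 h.symm hL hbL hxL
    have tHb : ¬ Thick Hb := thin_mono h.thin subset_union_right
    have hint : interior (closure (E D)) ∩ Lᶜ ⊆ interior Hb := by
      apply interior_maximal _ (isOpen_interior.inter hL.1.1.isOpen_compl)
      rintro y ⟨hy, hyL⟩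
      exact (hr (hsub (interior_subset hy))).resolve_right hyL
    have : x ∈ interior Hb := hint ⟨hxU, hxL⟩
    rw [thin_interior h.ib.1 tHb] at this
    exact this
  have hm : IsMeagre (univ : Set X) := by
    have h1 : IsMeagre (⋃ D ∈ ℬ, E D) := isMeagre_biUnion hℬc (fun D hD => (hnd D hD).isMeagre)
    refine ((nonGood_meagre hX).union h1).mono ?_
    intro x _
    by_cases hx : Good x
    · right
      obtain ⟨D, hD, hxD⟩ := hcov x hx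
      simp only [mem_iUnion]
      exact ⟨D, hD, hxD⟩
    · exact Or.inl hx
  exact not_isMeagre_of_isOpen isOpen_univ univ_nonempty hm

end Pool.Agent.Helper52Triod
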